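import Pool.Agent.H23.DZ.Defs
import Pool.Agent.H23.GLM.GL1
import Pool.Agent.H61.GLH.Inst
import Pool.Agent.H61.GLM.Euler

/-!
# Bounds far to the right
-/

set_option autoImplicit false

open Complex

namespace Pool.Agent.H23.DZ

open Pool.Agent.H23.GLM Pool.Agent.H23.GLH
open Pool.Agent.H61.GLM (elog elog_exp norm_elog_le Kz)

/-- The bounds far to the right follow from the Euler product. -/
theorem farBounds_of_euler {m : ℕ} {S : Set (LData m)} (h : ∀ π ∈ S, HasEuler π) :
    FarBounds S := by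
  refine ⟨2, Real.exp (-Kz m), Real.exp_pos _, fun π hπ s hs => ?_⟩
  obtain ⟨α, hα, hE⟩ := h π hπ
  obtain ⟨h1, h2⟩ := hE s (by linarith)
  have h3 := elog_exp hα (by linarith) h1 h2
  have h4 := norm_elog_le hα hs
  have h5 : |(elog α s).re| ≤ Kz m := (abs_re_le_norm _).trans h4
  rw [abs_le] at h5
  rw [← h3, norm_exp, ← Real.exp_neg, neg_neg]
  exact ⟨Real.exp_le_exp.mpr h5.1, Real.exp_le_exp.mpr h5.2⟩

/-- The bounds far to the right for Dirichlet `L`-functions. -/
theorem farBounds_primChar (S : Set PrimChar) : FarBounds (ofPrimChar '' S) := by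
  refine ⟨3, 1 / 3, by norm_num, ?_⟩
  rintro _ ⟨π, _, rfl⟩ s hs
  rw [ofPrimChar_L]
  have h := Pool.Agent.H61.GLH.L_near1 π (s := s) (by linarith)
  have h1 : ‖π.L s‖ ≤ ‖π.L s - 1‖ + 1 := by
    have := norm_add_le (π.L s - 1) 1
    rwa [sub_add_cancel, norm_one] at this
  have h2 : 1 ≤ ‖π.L s‖ + ‖π.L s - 1‖ := by
    have := norm_add_le (π.L s) (1 - π.L s)
    rw [add_sub_cancel, norm_one, norm_sub_rev] at this
    exact this
  constructor
  · linarith
  · rw [one_div, inv_inv]
    linarith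

end Pool.Agent.H23.DZ
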