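import Pool.Agent.H23.DZ.Slope

/-! The slope argument for families (module A5). -/

set_option autoImplicit false

open Complex Set

namespace Pool.Agent.H23.DZ

variable {ι : Type} {f : ι → ℂ → ℂ} {Q X : ι → ℝ → ℝ} {m : ℕ}

lemma Fam.one_le_X (h : Fam f Q X m) (i : ι) (t : ℝ) : 1 ≤ X i t :=
  (h.one_le_Q i t).trans (h.Q_le_X i t)

lemma Fam.X_le' (h : Fam f Q X m) (i : ι) {t u : ℝ} (hu : |u - t| ≤ 1) :
    X i u ≤ 2 ^ m * X i t := by
  refine (h.X_le i t u).trans ?_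
  have := h.one_le_X i t
  gcongr
  linarith

lemma Fam.Q_le' (h : Fam f Q X m) (i : ι) {t u : ℝ} (hu : |u - t| ≤ 1) :
    Q i u ≤ 2 ^ m * Q i t := by
  refine (h.Q_le i t u).trans ?_
  have := h.one_le_Q i t
  gcongr
  linarith

/-- Crude bound near height `t`. -/
lemma Fam.crude (h : Fam f Q X m) : ∃ M K : ℝ, 1 ≤ M ∧ ∀ (i : ι) (t : ℝ), K ≤ X i t →
    ∀ s : ℂ, -1 ≤ s.re → s.re ≤ 5 / 8 → |s.im - t| ≤ 1 → ‖f i s‖ ≤ X i t ^ M := by
  obtain ⟨C, hC1, hC⟩ := h.grow 1
  have hC0 : 0 < C := by linarith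
  refine ⟨2 * C, C * 2 ^ m, by linarith, fun i t ht s h1 h2 h3 => ?_⟩
  have hX1 := h.one_le_X i t
  have hX0 : 0 < X i t := by linarith
  have h4 : (C * 2 ^ m) ^ C ≤ X i t ^ C := Real.rpow_le_rpow (by positivity) ht hC0.le
  have h5 : C ≤ C ^ C := by
    calc C = C ^ (1:ℝ) := (Real.rpow_one C).symm
      _ ≤ C ^ C := Real.rpow_le_rpow_of_exponent_le hC1 hC1
  calc ‖f i s‖ ≤ C * X i s.im ^ C := hC i s h1 h2
    _ ≤ C * (2 ^ m * X i t) ^ C := by
        have := h.X_le' i h3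
        have h6 := h.one_le_X i s.im
        gcongr
    _ = C * ((2 ^ m) ^ C * X i t ^ C) := by rw [Real.mul_rpow (by positivity) hX0.le]
    _ ≤ C ^ C * ((2 ^ m) ^ C * X i t ^ C) := by gcongr
    _ = (C * 2 ^ m) ^ C * X i t ^ C := by rw [Real.mul_rpow hC0.le (by positivity)]; ring
    _ ≤ X i t ^ C * X i t ^ C := by gcongr
    _ = X i t ^ (2 * C) := by rw [← Real.rpow_add hX0]; congr 1; ring

theorem slope : SlopeStmt := by
  intro ι f Q X m hF k c l hc hl hl1
  obtain ⟨M₁, K₁, hM₁, hcr⟩ := hF.crude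
  obtain ⟨C₂, hC₂, hconv⟩ := hF.conv (c / 8) (by positivity)
  set ρ : ℝ := l / 8 with hρdef
  have hρ : 0 < ρ := by positivity
  have hρ1 : ρ ≤ 1 / 8 := by rw [hρdef]; linarith
  set r₀ : ℝ := min (1 / 16) (min (c * ρ ^ 2 / (128 * (M₁ + 2))) (c / 64)) with hr₀def
  have hr₀ : 0 < r₀ := by
    rw [hr₀def]
    refine lt_min (by norm_num) (lt_min ?_ ?_) <;> positivity
  have hr₀1 : r₀ ≤ 1 / 16 := min_le_left _ _
  have hr₀2 : r₀ ≤ c * ρ ^ 2 / (128 * (M₁ + 2)) := (min_le_right _ _).trans (min_le_left _ _)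
  have hr₀3 : r₀ ≤ c / 64 := (min_le_right _ _).trans (min_le_right _ _)
  have hr₀c : 128 * (M₁ + 2) * r₀ ≤ c * ρ ^ 2 := by
    rw [le_div_iff₀ (by positivity)] at hr₀2
    linarith
  obtain ⟨C₃, hC₃, hrefl⟩ := hF.refl r₀ hr₀ hr₀1
  set δ : ℝ := r₀ / 16 with hδ
  have hδ0 : 0 < δ := by positivity
  obtain ⟨C₄, hC₄, hcoef⟩ := coeff_bound k (δ := 2 * δ) (by positivity)
  set C₅ : ℝ := C₃ * 2 ^ m with hC₅def
  have h2m : (1:ℝ) ≤ 2 ^ m := one_le_pow₀ (by norm_num)
  have hC₅ : 1 ≤ C₅ := one_le_mul_of_one_le_of_one_le hC₃ h2m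
  -- large parameters
  obtain ⟨Ka, hKa1, hKa⟩ := exists_large (C₂ * (2 ^ m) ^ (c / 8 + 1 / 4)) (e := 5 * c / 8)
    (by positivity)
  obtain ⟨Kb, hKb1, hKb⟩ := exists_large (2 * (C₄ * C₅)) (e := c * r₀ / 4) (by positivity)
  obtain ⟨Kc, hKc1, hKc⟩ := exists_large (4 * C₄ * C₅) (e := c / 2) (by positivity)
  refine ⟨δ, c / 64, max K₁ (max Ka (max Kb Kc)), hδ0, by rw [hδ]; linarith, by positivity, ?_⟩
  intro i t a hXK hta hat hder u hu1 hu2
  have hK₁ : K₁ ≤ X i t := (le_max_left _ _).trans hXK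
  have hKa' := hKa (X i t) (((le_max_left _ _).trans (le_max_right _ _)).trans hXK)
  have hKb' := hKb (X i t)
    (((le_max_left _ _).trans ((le_max_right _ _).trans (le_max_right _ _))).trans hXK)
  have hKc' := hKc (X i t)
    (((le_max_right _ _).trans ((le_max_right _ _).trans (le_max_right _ _))).trans hXK)
  have hQ1 := hF.one_le_Q i t
  have hQX := hF.Q_le_X i t
  have hX1 := hF.one_le_X i t
  have hX0 : 0 < X i t := by linarith
  have hQ0 : 0 < Q i t := by linarith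
  have hut : |u - t| ≤ 1 := by
    rw [abs_le]
    constructor <;> linarith
  rcases lt_or_ge (Q i t) (X i t ^ c) with hQc | hQc
  · -- small local conductor
    have hXu := hF.X_le' i hut
    have hQu := hF.Q_le' i hut
    have h1u := hF.one_le_X i u
    have h1q := hF.one_le_Q i u
    calc ‖f i (1 / 2 + u * I)‖ ≤ C₂ * X i u ^ (c / 8) * Q i u ^ (1 / 4 : ℝ) := hconv i u
      _ ≤ C₂ * (2 ^ m * X i t) ^ (c / 8) * (2 ^ m * X i t ^ c) ^ (1 / 4 : ℝ) := by
          have h3 : Q i u ≤ 2 ^ m * X i t ^ c := hQu.trans (by gcongr)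
          gcongr
      _ = (C₂ * (2 ^ m) ^ (c / 8 + 1 / 4)) * X i t ^ (3 * c / 8) := by
          rw [Real.mul_rpow (by positivity) hX0.le, Real.mul_rpow (by positivity) (by positivity),
            ← Real.rpow_mul hX0.le, Real.rpow_add (by positivity)]
          have e : X i t ^ (3 * c / 8) = X i t ^ (c / 8) * X i t ^ (c * (1 / 4)) := by
            rw [← Real.rpow_add hX0]; congr 1; ring
          rw [e]
          ring
      _ ≤ X i t ^ (5 * c / 8) * X i t ^ (3 * c / 8) := by gcongr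
      _ = X i t ^ c := by rw [← Real.rpow_add hX0]; congr 1; ring
  · obtain ⟨r, hr, hr', hreflr⟩ := hrefl i
    have hρu : ∀ y : ℝ, |y - u| ≤ ρ → |y - t| ≤ 1 ∧ a ≤ y ∧ y ≤ a + l := by
      intro y hy
      rw [abs_le] at hy
      refine ⟨?_, ?_, ?_⟩
      · rw [abs_le]
        constructor <;> linarith [hy.1, hy.2]
      · linarith [hy.1]
      · linarith [hy.2]
    have hmain := slope_point (f := f i) (Q := Q i t) (X := X i t) (M₁ := M₁) (C₃ := C₅) (C₄ := C₄)
      (ε := c / 64) (δ := δ) (r₀ := r₀) (r := r) (ρ := ρ) (c := c) (u := u) (k := k)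
      (hF.diff i) hQ1 hQX hc hQc hM₁ hC₅ hC₄ (by positivity) hρ hρ1 hr₀ hr₀1 hr hr' hδ hr₀c
      (fun s h1 h2 h3 => hcr i t hK₁ s (by linarith) h2 (hρu s.im h3).1)
      (by
        intro y hy
        refine (hreflr y).trans ?_
        have hyt := (hρu y hy).1
        have h3 : Q i t ≤ 2 ^ m * Q i y := hF.Q_le' i (by rw [abs_sub_comm]; exact hyt)
        have hQy := hF.one_le_Q i y
        have hQy0 : 0 < Q i y := by linarith
        have hr0 : 0 < r := by linarith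
        have h4 : Q i y ^ (-r) ≤ 2 ^ m * Q i t ^ (-r) := by
          have h5 : Q i t ^ r ≤ 2 ^ m * Q i y ^ r := by
            calc Q i t ^ r ≤ (2 ^ m * Q i y) ^ r := Real.rpow_le_rpow hQ0.le h3 hr0.le
              _ = (2 ^ m) ^ r * Q i y ^ r := Real.mul_rpow (by positivity) hQy0.le
              _ ≤ (2 ^ m) ^ (1:ℝ) * Q i y ^ r := by
                  have := Real.rpow_le_rpow_of_exponent_le h2m (show r ≤ 1 by linarith)
                  gcongr
              _ = _ := by rw [Real.rpow_one]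
          rw [Real.rpow_neg hQy0.le, Real.rpow_neg hQ0.le, ← div_eq_mul_inv,
            le_div_iff₀ (by positivity), inv_mul_le_iff₀ (by positivity)]
          linarith
        calc C₃ * Q i y ^ (-r) * ‖f i (1 / 2 - r + y * I)‖
            ≤ C₃ * (2 ^ m * Q i t ^ (-r)) * ‖f i (1 / 2 - r + y * I)‖ := by gcongr
          _ = _ := by rw [hC₅def]; ring)
      (fun s h1 h2 h3 => hder s h1 h2 (hρu s.im h3).2.1 (hρu s.im h3).2.2)
      (fun a' B hB h => hcoef a' B hB h)
      (by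
        rw [Real.rpow_neg hX0.le, ← div_eq_mul_inv, div_le_iff₀ (by positivity)]
        linarith)
    refine hmain.trans ?_
    calc 4 * C₄ * C₅ * X i t ^ (c / 64 + 2 * r₀ + c * r₀ / 8)
        ≤ X i t ^ (c / 2) * X i t ^ (c / 2) := by
          have : X i t ^ (c / 64 + 2 * r₀ + c * r₀ / 8) ≤ X i t ^ (c / 2) := by
            apply Real.rpow_le_rpow_of_exponent_le hX1
            have h6 : c * r₀ / 8 ≤ c * (1 / 16) / 8 := by gcongr
            linarith
          gcongr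
      _ = X i t ^ c := by rw [← Real.rpow_add hX0]; congr 1; ring

end Pool.Agent.H23.DZ
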