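import Pool.Agent.H23.DZ.Ext3
import Pool.Agent.H23.DZ.Slope2
import Pool.Agent.H26.DZ.A1
import Pool.Agent.H26.DZ.A3
import Pool.Agent.H34.DZ.G
import Pool.Agent.H34.DZ.T3
import Pool.Agent.H51.DZ.F2
import Pool.Agent.H51.DZ.F6
import Pool.Agent.H73.DZ.F4
import Pool.Agent.H73.DZ.F5
import Pool.Agent.H87.DZ.F3
import Pool.Agent.H92.DZ.A2
import Pool.Agent.H92.DZ.F7
import Pool.Agent.H23.GLM.Instance

/-!
# Module A6 for `MP_52e316_nt`: assembly
-/

set_option autoImplicit false

open Complex MeasureTheory Set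

namespace Pool.Agent.H23.DZ

open Pool.Agent.H23.GLM Pool.Agent.H23.GLH

variable {m : ℕ}

/-- The standard `L`-functions form a family. -/
theorem fam (hm : 1 ≤ m) {S : Set (LData m)} (hM : Molteni S) (hF : FarBounds S) :
    Fam (fun π : S => (π : LData m).L) (fun π : S => (π : LData m).Q)
      (fun π : S => (π : LData m).X) m := by
  have hleft : LeftStmt := Pool.Agent.H87.DZ.leftStmt Pool.Agent.H34.DZ.g1 Pool.Agent.H51.DZ.normFE
  have hgrow : GrowStmt :=
    Pool.Agent.H73.DZ.growStmt hleft Pool.Agent.H34.DZ.g1 Pool.Agent.H51.DZ.normFE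
  have hconv : ConvStmt := Pool.Agent.H73.DZ.convStmt hleft hgrow Pool.Agent.H34.DZ.t3
  have hrefl : ReflStmt := Pool.Agent.H51.DZ.refl_of Pool.Agent.H34.DZ.g2 Pool.Agent.H51.DZ.normFE
  have hlow : LowStmt := Pool.Agent.H92.DZ.low Pool.Agent.H34.DZ.g2 Pool.Agent.H34.DZ.g3
    Pool.Agent.H51.DZ.normFE
  refine ⟨fun π t => Pool.Agent.H73.DZ.one_le_Q _ t, fun π t => Pool.Agent.H73.DZ.Q_le_X _ t,
    fun π t u => Pool.Agent.H73.DZ.Q_le _ t u, fun π t u => Pool.Agent.H73.DZ.X_le _ t u, ?_,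
    hgrow m S hM, hleft m S hM, hconv m S hM, ?_, hlow m S hm hF⟩
  · rintro ⟨π, hπ⟩ s hs
    rcases π.regular with ⟨h, _⟩ | ⟨_, _, _, h⟩
    · exact h s
    · show DifferentiableAt ℂ π.L s
      rw [h]
      apply differentiableAt_riemannZeta
      rintro rfl
      simp at hs
      linarith
  · intro r₀ h1 h2
    obtain ⟨C, hC, h⟩ := hrefl m r₀ h1 h2
    exact ⟨C, hC, fun π => h π⟩

lemma glh_iff {S : Set (LData m)} (hm : 1 ≤ m) : GLH S ↔ ∀ ε : ℝ, 0 < ε → Bound S ε := by
  constructor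
  · intro h ε hε
    obtain ⟨B, hB⟩ := h ε hε
    refine ⟨max B 0, fun π hπ t => (hB π hπ t).trans ?_⟩
    have hC := π.one_le_C
    have ht := abs_nonneg t
    have h1 : (1 + |t|) * π.C ≤ π.X t := by
      have : 1 + |t| ≤ (1 + |t|) ^ m := le_self_pow₀ (by linarith) (by omega)
      calc (1 + |t|) * π.C ≤ (1 + |t|) ^ m * π.C := by gcongr
        _ = _ := mul_comm _ _
    have h2 : ((1 + |t|) * π.C) ^ ε ≤ π.X t ^ ε := Real.rpow_le_rpow (by positivity) h1 hε.le
    calc B * ((1 + |t|) * π.C) ^ ε ≤ max B 0 * ((1 + |t|) * π.C) ^ ε := by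
          have : 0 ≤ ((1 + |t|) * π.C) ^ ε := by positivity
          gcongr
          exact le_max_left _ _
      _ ≤ _ := by
          have : 0 ≤ max B 0 := le_max_right _ _
          gcongr
  · intro h ε hε
    have hm0 : (0:ℝ) < m := by exact_mod_cast hm
    obtain ⟨B, hB⟩ := h (ε / m) (by positivity)
    refine ⟨max B 0, fun π hπ t => (hB π hπ t).trans ?_⟩
    have hC := π.one_le_C
    have ht := abs_nonneg t
    have h1 : π.X t ≤ ((1 + |t|) * π.C) ^ m := by
      have : π.C ≤ π.C ^ m := le_self_pow₀ hC (by omega)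
      rw [mul_pow]
      calc π.X t = π.C * (1 + |t|) ^ m := rfl
        _ ≤ π.C ^ m * (1 + |t|) ^ m := by gcongr
        _ = _ := mul_comm _ _
    have h2 : π.X t ^ (ε / m) ≤ ((1 + |t|) * π.C) ^ ε := by
      have hX := π.one_le_X t
      calc π.X t ^ (ε / m) ≤ (((1 + |t|) * π.C) ^ m) ^ (ε / m) :=
            Real.rpow_le_rpow (by linarith) h1 (by positivity)
        _ = _ := by
            rw [← Real.rpow_natCast, ← Real.rpow_mul (by positivity)]
            congr 1
            field_simp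
    calc B * π.X t ^ (ε / m) ≤ max B 0 * π.X t ^ (ε / m) := by
          have hX := π.one_le_X t
          have : 0 ≤ π.X t ^ (ε / m) := by positivity
          gcongr
          exact le_max_left _ _
      _ ≤ _ := by
          have : 0 ≤ max B 0 := le_max_right _ _
          gcongr

/-- The bound on small sets in short windows implies the Lindelof bound. -/
theorem glh_of_goodWindows (hm : 1 ≤ m) {S : Set (LData m)} (hM : Molteni S)
    (h : ∀ ε : ℝ, 0 < ε → ∃ η : ℝ, 0 < η ∧ η ≤ ε ∧ GoodWindows S ε η (Real.exp (-(ε / η)))) :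
    GLH S := by
  have hpi := Real.pi_pos
  rw [glh_iff hm]
  have h1 := sampling hM le_rfl (κ := 1 / (2 * Real.pi)) (by positivity) (fun ε hε => by
    obtain ⟨η, hη, hηε, hW⟩ := h (min ε 1) (by positivity)
    have hη1 : η ≤ 1 := hηε.trans (min_le_right _ _)
    refine ⟨η, hη, hηε.trans (min_le_left _ _), ?_⟩
    have h3 := goodSamples_of_goodWindows hη (κ := 1 / (2 * Real.pi)) (by positivity)
      (by
        have : 1 / (2 * Real.pi) ≤ 1 / 2 := by
          apply one_div_le_one_div_of_le (by norm_num)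
          have := Real.pi_gt_three
          linarith
        nlinarith) (Real.exp_pos _) hW
    refine goodSamples_mono hη.le le_rfl ?_ ?_ h3
    · have : min ε 1 ≤ ε := min_le_left _ _
      linarith
    · apply Real.exp_le_exp.mpr
      apply neg_le_neg
      gcongr
      exact min_le_left _ _)
  have h4 : max 0 ((1 - 2 * Real.pi * (1 / (2 * Real.pi))) / 4) = 0 := by
    apply max_eq_left
    have : 2 * Real.pi * (1 / (2 * Real.pi)) = 1 := by field_simp
    rw [this]
    linarith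
  intro ε hε
  have := h1 ε hε
  rwa [h4, zero_add] at this

/-- The main theorem: the Lindelof bound in terms of zeros of the `k`-th derivative to the left of
the critical line. -/
theorem main (hm : 1 ≤ m) {S : Set (LData m)} (hM : Molteni S) (hF : FarBounds S) (k : ℕ) :
    List.TFAE [
      GLH S,
      ∀ A δ κ : ℝ, 0 < δ → 0 < κ → ∃ K : ℝ, ∀ π ∈ S, ∀ t : ℝ, K ≤ π.X t →
        FewIn (iteratedDeriv k π.L) (-A) (1 / 2 - δ) t (t + 1) (κ * Real.log (π.X t)),
      ∀ ε : ℝ, 0 < ε → ∃ η : ℝ, 0 < η ∧ η ≤ ε ∧ ∀ δ κ : ℝ, 0 < δ → 0 < κ → ∃ K : ℝ,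
        ∀ π ∈ S, ∀ t : ℝ, K ≤ π.X t → ∃ a : ℝ, t ≤ a ∧ a + Real.exp (-(ε / η)) ≤ t + η ∧
          FewIn (iteratedDeriv k π.L) (-1) (1 / 2 - δ) a (a + Real.exp (-(ε / η)))
            (κ * Real.log (π.X t))] := by
  have hfam := fam hm hM hF
  have hD : DerivStmt := Pool.Agent.H26.DZ.derivStmt
  have hCount : CountStmt := Pool.Agent.H92.DZ.count hD
  have hLL : LinLeftStmt := Pool.Agent.H26.DZ.linLeftStmt Pool.Agent.H34.DZ.t3
  have hExt : ExtStmt := ext hD
  tfae_have 1 → 2 := by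
    intro h A δ κ hδ hκ
    have hlin : Lin (fun π : S => (π : LData m).L) (fun π : S => (π : LData m).X) := by
      intro ε hε
      obtain ⟨B, hB⟩ := (glh_iff hm).mp h ε hε
      refine ⟨max B 1, le_max_right _ _, ?_⟩
      rintro ⟨π, hπ⟩ t
      refine (hB π hπ t).trans ?_
      have hX := π.one_le_X t
      show B * π.X t ^ ε ≤ max B 1 * π.X t ^ ε
      gcongr
      exact le_max_left _ _
    obtain ⟨K, hK⟩ := hCount _ _ _ m hfam (1 / 2) le_rfl (hLL _ _ _ m hfam hlin) k A δ κ hδ hκ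
    exact ⟨K, fun π hπ t ht => hK ⟨π, hπ⟩ t ht⟩
  tfae_have 2 → 3 := by
    intro h ε hε
    set η := min ε (ε ^ 2 / 2) with hη
    have hη0 : 0 < η := lt_min hε (by positivity)
    have hη1 : η ≤ ε := min_le_left _ _
    have hη2 : η ≤ ε ^ 2 / 2 := min_le_right _ _
    have hx : 0 < ε / η := by positivity
    have hexp : Real.exp (-(ε / η)) ≤ η := by
      rw [Real.exp_neg]
      have h1 : (ε / η) ^ 2 / 2 ≤ Real.exp (ε / η) := by
        have := Real.quadratic_le_exp_of_nonneg hx.le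
        linarith
      have h3 : 1 / η ≤ Real.exp (ε / η) := by
        refine le_trans ?_ h1
        rw [div_pow, div_div, div_le_div_iff₀ hη0 (by positivity)]
        nlinarith
      rw [inv_le_comm₀ (Real.exp_pos _) hη0]
      rwa [one_div] at h3
    have hexp1 : Real.exp (-(ε / η)) ≤ 1 := by
      rw [Real.exp_le_one_iff]
      linarith
    refine ⟨η, hη0, hη1, fun δ κ hδ hκ => ?_⟩
    obtain ⟨K, hK⟩ := h 1 δ κ hδ hκ
    refine ⟨K, fun π hπ t ht => ⟨t, le_rfl, by linarith, ?_⟩⟩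
    intro Z hZ
    exact hK π hπ t ht Z fun z hz =>
      ⟨(hZ z hz).1, (hZ z hz).2.1, (hZ z hz).2.2.1, (hZ z hz).2.2.2.trans (by linarith)⟩
  tfae_have 3 → 1 := by
    intro h
    apply glh_of_goodWindows hm hM
    intro ε hε
    set ε' : ℝ := min ε 1 / 4 with hε'
    have hε'0 : 0 < ε' := by
      have : 0 < min ε 1 := lt_min hε one_pos
      positivity
    have hε'1 : ε' ≤ ε / 4 := by
      have : min ε 1 ≤ ε := min_le_left _ _
      linarith
    have hε'2 : ε' ≤ 1 / 4 := by
      have : min ε 1 ≤ 1 := min_le_right _ _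
      linarith
    obtain ⟨η, hη0, hηε, hwin⟩ := h ε' hε'0
    set l : ℝ := Real.exp (-(ε' / η)) with hl
    have hl0 : 0 < l := Real.exp_pos _
    have hl1 : l ≤ 1 := by
      rw [hl, Real.exp_le_one_iff]
      have : 0 < ε' / η := by positivity
      linarith
    obtain ⟨δ, ε₁, K₁, hδ0, hδ1, hε₁, hslope⟩ := slope _ _ _ m hfam k (ε / 2) (l / 2)
      (by positivity) (by positivity) (by linarith)
    obtain ⟨κ, K₂, hκ, hext⟩ := hExt _ _ _ m hfam k ε₁ δ l hε₁ hδ0 hδ1 hl0 hl1
    obtain ⟨K₃, hK₃⟩ := hwin δ κ hδ0 hκ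
    refine ⟨η, hη0, by linarith, max K₁ (max K₂ (max K₃ (4 ^ m))), ?_⟩
    intro π hπ t ht
    have ht1 : K₁ ≤ π.X t := (le_max_left _ _).trans ht
    have ht2 : K₂ ≤ π.X t := ((le_max_left _ _).trans (le_max_right _ _)).trans ht
    have ht3 : K₃ ≤ π.X t :=
      ((le_max_left _ _).trans ((le_max_right _ _).trans (le_max_right _ _))).trans ht
    have ht4 : (4:ℝ) ^ m ≤ π.X t :=
      ((le_max_right _ _).trans ((le_max_right _ _).trans (le_max_right _ _))).trans ht
    obtain ⟨a, ha1, ha2, hfew⟩ := hK₃ π hπ t ht3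
    have hη1 : η ≤ 1 := by linarith
    have hsmall := hext ⟨π, hπ⟩ t a ht2 ha1 (by linarith) hfew
    have hcrit := hslope ⟨π, hπ⟩ t (a + l / 4) ht1 (by linarith) (by linarith)
      (fun s h1 h2 h3 h4 => hsmall s h1 h2 h3 (by linarith))
    have hsub : Icc (a + l / 4 + l / 2 / 4) (a + l / 4 + 3 * (l / 2) / 4) ⊆
        {u : ℝ | u ∈ Icc t (t + η) ∧ ‖π.L (1 / 2 + u * I)‖ ≤ π.X u ^ ε} := by
      intro u hu
      refine ⟨⟨by linarith [hu.1], by linarith [hu.2]⟩, ?_⟩
      have h1 : ‖π.L (1 / 2 + u * I)‖ ≤ π.X t ^ (ε / 2) := hcrit u hu.1 hu.2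
      have hXu := π.one_le_X u
      have h2 : π.X t ≤ 2 ^ m * π.X u := by
        refine (Pool.Agent.H73.DZ.X_le π u t).trans ?_
        gcongr
        have : |t - u| ≤ 1 := by
          rw [abs_le]
          constructor <;> linarith [hu.1, hu.2]
        linarith
      have h3 : (2:ℝ) ^ m ≤ π.X u := by
        have h4 : (2:ℝ) ^ m * 2 ^ m ≤ 2 ^ m * π.X u := by
          rw [← mul_pow]
          norm_num
          exact ht4.trans h2
        exact le_of_mul_le_mul_left h4 (by positivity)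
      calc ‖π.L (1 / 2 + u * I)‖ ≤ π.X t ^ (ε / 2) := h1
        _ ≤ (π.X u * π.X u) ^ (ε / 2) := by
            apply Real.rpow_le_rpow (by linarith [π.one_le_X t]) _ (by positivity)
            exact h2.trans (by gcongr)
        _ = π.X u ^ ε := by
            rw [Real.mul_rpow (by linarith) (by linarith), ← Real.rpow_add (by linarith),
              add_halves]
    refine le_trans ?_ (measure_mono hsub)
    rw [Real.volume_Icc]
    apply ENNReal.ofReal_le_ofReal
    have e1 : a + l / 4 + 3 * (l / 2) / 4 - (a + l / 4 + l / 2 / 4) = l * (1 / 4) := by ring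
    rw [e1]
    have e2 : Real.exp (-(ε / η)) ≤ l * Real.exp (-3) := by
      rw [hl, ← Real.exp_add]
      apply Real.exp_le_exp.mpr
      have e3 : ε' / η + 3 ≤ ε / η := by
        rw [div_add' _ _ _ hη0.ne', div_le_div_iff_of_pos_right hη0]
        linarith
      linarith
    refine e2.trans ?_
    gcongr
    rw [Real.exp_neg, inv_eq_one_div]
    apply one_div_le_one_div_of_le (by norm_num)
    have := Real.add_one_le_exp (3:ℝ)
    linarith
  tfae_finish

end Pool.Agent.H23.DZ
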