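import Pool.Agent.H23.DZ.Defs

/-!
Module targets for `MP_52e316_nt`, zeros of derivatives and the Lindelof hypothesis.
-/

set_option autoImplicit false

open Complex

namespace Pool.Agent.H23.DZ

open Pool.Agent.H23.GLM Pool.Agent.H23.GLH

/-- The quotient of archimedean factors in the functional equation. -/
noncomputable def ratio (z : ℂ) (x : ℝ) : ℂ := Gammaℝ (z + x) * (Gammaℝ (z - x))⁻¹

/-- G1. Upper bound for the quotient. -/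
def RatioUpperStmt : Prop :=
  ∀ A : ℝ, ∃ C : ℝ, 1 ≤ C ∧ ∀ (x : ℝ) (z : ℂ), 0 < x → x ≤ A → 0 ≤ z.re →
    ‖ratio z x‖ ≤ C * (1 + ‖z‖) ^ x

/-- G2. Lower bound for the quotient away from the trivial zeros. -/
def RatioLowerStmt : Prop :=
  ∀ A η : ℝ, 0 < η → ∃ c : ℝ, 0 < c ∧ ∀ (x : ℝ) (z : ℂ), 0 < x → x ≤ A → 0 ≤ z.re →
    (∀ n : ℕ, η ≤ |z.re - x + 2 * n|) → c * (1 + ‖z‖) ^ x ≤ ‖ratio z x‖

/-- G3. Two steps of the recursion. -/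
def RatioStepStmt : Prop :=
  ∀ (x : ℝ) (z : ℂ), 2 < x → 0 ≤ z.re → z - x ≠ 0 →
    ratio z x = ratio z (x - 2) * ((z + x - 2) * (z - x) / (4 * (Real.pi : ℂ) ^ 2))

/-- F2. The functional equation in terms of absolute values, also for the Riemann zeta function. -/
def NormFEStmt : Prop :=
  ∀ (m : ℕ) (π : LData m) (x t : ℝ), 0 < x → (x ≠ 1 / 2 ∨ t ≠ 0) →
    ‖π.L (1 / 2 - x + t * I)‖ = (π.N : ℝ) ^ x * (∏ j, ‖ratio (1 / 2 + t * I - π.μ j) x‖) *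
      ‖π.L (1 / 2 + x + t * I)‖

/-- F3. -/
def LeftStmt : Prop := ∀ (m : ℕ) (S : Set (LData m)), Molteni S →
  LeftBd (fun π : S => (π : LData m).L) (fun π : S => (π : LData m).Q)
    (fun π : S => (π : LData m).X) 0

/-- F4. -/
def GrowStmt : Prop := ∀ (m : ℕ) (S : Set (LData m)), Molteni S →
  GrowBd (fun π : S => (π : LData m).L) (fun π : S => (π : LData m).X) (5 / 8)

/-- T3. The three lines theorem, localised by a Gaussian factor. -/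
def ThreeLinesStmt : Prop :=
  ∀ (p : ℕ), ∃ K : ℝ, 1 ≤ K ∧ ∀ (f : ℂ → ℂ) (a b t Ma Mb : ℝ), a < b → b - a ≤ 2 → 0 < Ma → 0 < Mb →
    (∀ s : ℂ, a ≤ s.re → s.re ≤ b → DifferentiableAt ℂ f s) →
    (∃ (C : ℝ) (n : ℕ), ∀ s : ℂ, a ≤ s.re → s.re ≤ b → ‖f s‖ ≤ C * (1 + |s.im|) ^ n) →
    (∀ u : ℝ, ‖f (a + u * I)‖ ≤ Ma * (1 + |u - t|) ^ p) →
    (∀ u : ℝ, ‖f (b + u * I)‖ ≤ Mb * (1 + |u - t|) ^ p) →
    ∀ σ : ℝ, a ≤ σ → σ ≤ b →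
      ‖f (σ + t * I)‖ ≤ K * Ma ^ ((b - σ) / (b - a)) * Mb ^ ((σ - a) / (b - a))

/-- F5. Convexity bound in terms of the local conductor. -/
def ConvStmt : Prop := ∀ (m : ℕ) (S : Set (LData m)), Molteni S →
  ∀ ε : ℝ, 0 < ε → ∃ C : ℝ, 1 ≤ C ∧ ∀ (π : S) (t : ℝ),
    ‖(π : LData m).L (1 / 2 + t * I)‖ ≤
      C * (π : LData m).X t ^ ε * (π : LData m).Q t ^ (1 / 4 : ℝ)

/-- F6. -/
def ReflStmt : Prop := ∀ (m : ℕ) (r₀ : ℝ), 0 < r₀ → r₀ ≤ 1 / 16 → ∃ C : ℝ, 1 ≤ C ∧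
  ∀ π : LData m, ∃ r : ℝ, r₀ ≤ r ∧ r ≤ 2 * r₀ ∧ ∀ t : ℝ,
    ‖π.L (1 / 2 + r + t * I)‖ ≤ C * π.Q t ^ (-r) * ‖π.L (1 / 2 - r + t * I)‖

/-- F7. -/
def LowStmt : Prop := ∀ (m : ℕ) (S : Set (LData m)), 1 ≤ m → FarBounds S →
  LowBd (fun π : S => (π : LData m).L) (fun π : S => (π : LData m).Q)

/-- A1. Cauchy's estimate. -/
def DerivStmt : Prop := ∀ {ι : Type} (f : ι → ℂ → ℂ) (Q X : ι → ℝ → ℝ) (m : ℕ), Fam f Q X m →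
  ∀ k : ℕ, (∀ b ≤ (1 / 2 : ℝ), LeftBd f Q X b → LeftBd (fun i => iteratedDeriv k (f i)) Q X b) ∧
    GrowBd (fun i => iteratedDeriv k (f i)) X (9 / 16)

/-- A2. Few zeros of the derivatives (Jensen's formula in a large disc). -/
def CountStmt : Prop := ∀ {ι : Type} (f : ι → ℂ → ℂ) (Q X : ι → ℝ → ℝ) (m : ℕ), Fam f Q X m →
  ∀ b ≤ (1 / 2 : ℝ), LeftBd f Q X b → ∀ (k : ℕ) (A δ κ : ℝ), 0 < δ → 0 < κ →
    ∃ K : ℝ, ∀ (i : ι) (t : ℝ), K ≤ X i t →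
      FewIn (iteratedDeriv k (f i)) (-A) (b - δ) t (t + 1) (κ * Real.log (X i t))

/-- A3. -/
def LinLeftStmt : Prop := ∀ {ι : Type} (f : ι → ℂ → ℂ) (Q X : ι → ℝ → ℝ) (m : ℕ), Fam f Q X m →
  Lin f X → LeftBd f Q X (1 / 2)

/-- A4. If the `k`-th derivative has few zeros in a horizontal strip to the left of the line
`Re s = 1/2 - δ` then it is small there. -/
def ExtStmt : Prop := ∀ {ι : Type} (f : ι → ℂ → ℂ) (Q X : ι → ℝ → ℝ) (m : ℕ), Fam f Q X m →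
  ∀ (k : ℕ) (ε δ l : ℝ), 0 < ε → 0 < δ → δ ≤ 1 / 8 → 0 < l → l ≤ 1 → ∃ κ K : ℝ, 0 < κ ∧
    ∀ (i : ι) (t a : ℝ), K ≤ X i t → t ≤ a → a + l ≤ t + 1 →
      FewIn (iteratedDeriv k (f i)) (-1) (1 / 2 - δ) a (a + l) (κ * Real.log (X i t)) →
      ∀ s : ℂ, -(1 / 2) ≤ s.re → s.re ≤ 1 / 2 - 2 * δ → a + l / 4 ≤ s.im → s.im ≤ a + 3 * l / 4 →
        ‖iteratedDeriv k (f i) s‖ ≤ X i t ^ ε * Q i t ^ (1 / 2 - s.re)

/-- A5. If the `k`-th derivative is small to the left of the critical line in a horizontal strip,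
then the function is small on the critical line there. -/
def SlopeStmt : Prop := ∀ {ι : Type} (f : ι → ℂ → ℂ) (Q X : ι → ℝ → ℝ) (m : ℕ), Fam f Q X m →
  ∀ (k : ℕ) (c l : ℝ), 0 < c → 0 < l → l ≤ 1 → ∃ δ ε K : ℝ, 0 < δ ∧ δ ≤ 1 / 8 ∧ 0 < ε ∧
    ∀ (i : ι) (t a : ℝ), K ≤ X i t → t ≤ a → a + l ≤ t + 1 →
      (∀ s : ℂ, -(1 / 2) ≤ s.re → s.re ≤ 1 / 2 - 2 * δ → a ≤ s.im → s.im ≤ a + l →
        ‖iteratedDeriv k (f i) s‖ ≤ X i t ^ ε * Q i t ^ (1 / 2 - s.re)) →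
      ∀ u : ℝ, a + l / 4 ≤ u → u ≤ a + 3 * l / 4 → ‖f i (1 / 2 + u * I)‖ ≤ X i t ^ c

end Pool.Agent.H23.DZ
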