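import Pool.Agent.H23.GLM.Defs

/-!
# Definitions for the statement about zeros of derivatives
-/

set_option autoImplicit false

open Complex

namespace Pool.Agent.H23.DZ

open Pool.Agent.H23.GLM

/-- The function `F` has at most `n` zeros, counted with multiplicity, in the region `R`: for every
finite set of points of `R` the sum of the orders of vanishing is at most `n` (points that are not
zeros have order `0`). -/
def FewZeros (F : ℂ → ℂ) (R : Set ℂ) (n : ℝ) : Prop :=
  ∀ Z : Finset ℂ, (∀ z ∈ Z, z ∈ R) → ((∑ z ∈ Z, analyticOrderNatAt F z : ℕ) : ℝ) ≤ n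

/-- Upper and lower bounds far to the right. For the standard `L`-functions of `GL_m` these follow
from the Euler product and the bounds of Jacquet and Shalika for the Satake parameters. -/
def FarBounds {m : ℕ} (S : Set (LData m)) : Prop :=
  ∃ σ₁ c : ℝ, 0 < c ∧ ∀ π ∈ S, ∀ s : ℂ, σ₁ ≤ s.re → c ≤ ‖π.L s‖ ∧ ‖π.L s‖ ≤ c⁻¹

/-- The Euler product of `L(s, π)` over the primes, absolutely convergent for `Re s > 1`, with local
parameters `α_j(p)` of modulus at most `p^(1/2)` (Jacquet and Shalika). -/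
def HasEuler {m : ℕ} (π : LData m) : Prop :=
  ∃ α : Nat.Primes → Fin m → ℂ, (∀ p j, ‖α p j‖ ≤ (p : ℝ) ^ (1 / 2 : ℝ)) ∧
    ∀ s : ℂ, 1 < s.re → (Summable fun p : Nat.Primes => ∑ j, ‖α p j‖ * (p : ℝ) ^ (-s.re)) ∧
      HasProd (fun p : Nat.Primes => ∏ j, (1 - α p j * (p : ℂ) ^ (-s))⁻¹) (π.L s)

end Pool.Agent.H23.DZ
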