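import Pool.Agent.H23.GLM.Instance
import Pool.Agent.H23.DZ.Far

/-!
# Zeros of derivatives and the Lindelof hypothesis: definitions

`FewIn F x₁ x₂ y₁ y₂ n`: the function `F` has at most `n` zeros (with multiplicity) in the closed
rectangle `[x₁, x₂] × [y₁, y₂]`.

`Fam f Q X m`: the properties of a family `f i` of `L`-functions (near and to the left of the
critical line) which the analytic part of the proof uses. `Q i t` is the local analytic conductor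
`N ∏ (1 + |it - μ_j|)`, `X i t` is the global one, `C_π (1 + |t|)^m`.
-/

set_option autoImplicit false

open Complex

namespace Pool.Agent.H23.DZ

open Pool.Agent.H23.GLM Pool.Agent.H23.GLH

/-- At most `n` zeros of `F`, counted with multiplicity, in the rectangle `[x₁, x₂] × [y₁, y₂]`: for
every finite set of points of the rectangle the sum of the orders of vanishing is at most `n`. -/
def FewIn (F : ℂ → ℂ) (x₁ x₂ y₁ y₂ n : ℝ) : Prop :=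
  ∀ Z : Finset ℂ, (∀ z ∈ Z, x₁ ≤ z.re ∧ z.re ≤ x₂ ∧ y₁ ≤ z.im ∧ z.im ≤ y₂) →
    ((∑ z ∈ Z, analyticOrderNatAt F z : ℕ) : ℝ) ≤ n

variable {ι : Type*}

/-- The bound `|f(s)| ≤ C X^ε Q^(1/2 - Re s)` for `-A ≤ Re s ≤ b - ε`. -/
def LeftBd (f : ι → ℂ → ℂ) (Q X : ι → ℝ → ℝ) (b : ℝ) : Prop :=
  ∀ A ε : ℝ, 0 < ε → ∃ C : ℝ, 1 ≤ C ∧ ∀ (i : ι) (s : ℂ), -A ≤ s.re → s.re ≤ b - ε →
    ‖f i s‖ ≤ C * X i s.im ^ ε * Q i s.im ^ (1 / 2 - s.re)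

/-- A polynomial bound for `-A ≤ Re s ≤ b`. -/
def GrowBd (f : ι → ℂ → ℂ) (X : ι → ℝ → ℝ) (b : ℝ) : Prop :=
  ∀ A : ℝ, ∃ C : ℝ, 1 ≤ C ∧ ∀ (i : ι) (s : ℂ), -A ≤ s.re → s.re ≤ b → ‖f i s‖ ≤ C * X i s.im ^ C

/-- The Lindelof bound on the critical line. -/
def Lin (f : ι → ℂ → ℂ) (X : ι → ℝ → ℝ) : Prop :=
  ∀ ε : ℝ, 0 < ε → ∃ C : ℝ, 1 ≤ C ∧ ∀ (i : ι) (t : ℝ), ‖f i (1 / 2 + t * I)‖ ≤ C * X i t ^ ε

/-- The lower bound for the `k`-th derivatives far to the left. -/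
def LowBd (f : ι → ℂ → ℂ) (Q : ι → ℝ → ℝ) : Prop :=
  ∀ (k : ℕ) (K₀ : ℝ), ∃ K₁ c : ℝ, K₀ ≤ K₁ ∧ 0 < c ∧ ∀ (i : ι) (t : ℝ), ∃ σ : ℝ,
    -K₁ ≤ σ ∧ σ ≤ -K₀ ∧ c * Q i t ^ (1 / 2 - σ) ≤ ‖iteratedDeriv k (f i) (σ + t * I)‖

/-- A family of functions with the properties of a family of `L`-functions of degree `m`. -/
structure Fam (f : ι → ℂ → ℂ) (Q X : ι → ℝ → ℝ) (m : ℕ) : Prop where
  one_le_Q : ∀ i t, 1 ≤ Q i t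
  Q_le_X : ∀ i t, Q i t ≤ X i t
  Q_le : ∀ i t u, Q i u ≤ (1 + |u - t|) ^ m * Q i t
  X_le : ∀ i t u, X i u ≤ (1 + |u - t|) ^ m * X i t
  diff : ∀ i (s : ℂ), s.re < 3 / 4 → DifferentiableAt ℂ (f i) s
  grow : GrowBd f X (5 / 8)
  left : LeftBd f Q X 0
  conv : ∀ ε : ℝ, 0 < ε → ∃ C : ℝ, 1 ≤ C ∧ ∀ (i : ι) (t : ℝ),
    ‖f i (1 / 2 + t * I)‖ ≤ C * X i t ^ ε * Q i t ^ (1 / 4 : ℝ)
  refl : ∀ r₀ : ℝ, 0 < r₀ → r₀ ≤ 1 / 16 → ∃ C : ℝ, 1 ≤ C ∧ ∀ i : ι, ∃ r : ℝ, r₀ ≤ r ∧ r ≤ 2 * r₀ ∧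
    ∀ t : ℝ, ‖f i (1 / 2 + r + t * I)‖ ≤ C * Q i t ^ (-r) * ‖f i (1 / 2 - r + t * I)‖
  low : LowBd f Q

/-- The local analytic conductor `N ∏_j (1 + |it - μ_j|)`. -/
noncomputable def _root_.Pool.Agent.H23.GLM.LData.Q {m : ℕ} (π : LData m) (t : ℝ) : ℝ :=
  π.N * ∏ j, (1 + ‖t * I - π.μ j‖)

end Pool.Agent.H23.DZ
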