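import Pool.Agent.H51.DZ.F2
import Pool.Agent.H34.DZ.G

/-!
# Zeros to the left and to the right of the critical line
-/

set_option autoImplicit false

open Complex Set Filter Topology

namespace Pool.Agent.H23.DZ

open Pool.Agent.H23.GLM Pool.Agent.H23.GLH

variable {m : ℕ}

/-- Reflection in the critical line. -/
noncomputable def J (s : ℂ) : ℂ := 1 - (starRingEnd ℂ) s

lemma J_J (s : ℂ) : J (J s) = s := by simp [J]

lemma J_re (s : ℂ) : (J s).re = 1 - s.re := by simp [J]

lemma J_im (s : ℂ) : (J s).im = s.im := by simp [J]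

lemma continuous_J : Continuous J := continuous_const.sub continuous_conj

lemma analyticAt_star {f : ℂ → ℂ} {s : ℂ} (hf : AnalyticAt ℂ f (J s)) :
    AnalyticAt ℂ (fun z => (starRingEnd ℂ) (f (J z))) s := by
  rw [analyticAt_iff_eventually_differentiableAt] at hf ⊢
  have h1 : ∀ᶠ z in 𝓝 s, DifferentiableAt ℂ f (J z) := continuous_J.continuousAt.eventually hf
  filter_upwards [h1] with z hz
  have h2 : DifferentiableAt ℂ (fun w => f (1 - w)) ((starRingEnd ℂ) z) := by
    have : DifferentiableAt ℂ f (1 - (starRingEnd ℂ) z) := hz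
    exact this.comp ((starRingEnd ℂ) z) (differentiableAt_id.const_sub 1)
  have h3 := h2.conj_conj
  rw [conj_conj] at h3
  exact h3

lemma order_star {f : ℂ → ℂ} {s : ℂ} (hf : AnalyticAt ℂ f (J s)) :
    analyticOrderAt (fun z => (starRingEnd ℂ) (f (J z))) s = analyticOrderAt f (J s) := by
  by_cases h : analyticOrderAt f (J s) = ⊤
  · rw [h]
    rw [analyticOrderAt_eq_top] at h ⊢
    filter_upwards [continuous_J.continuousAt.eventually h] with z hz
    rw [hz, map_zero]
  · obtain ⟨n, hn⟩ := ENat.ne_top_iff_exists.mp h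
    rw [← hn]
    rw [Eq.comm, hf.analyticOrderAt_eq_natCast] at hn
    obtain ⟨g, hg, hg0, hge⟩ := hn
    rw [(analyticAt_star hf).analyticOrderAt_eq_natCast]
    refine ⟨fun z => (-1) ^ n * (starRingEnd ℂ) (g (J z)), ?_, ?_, ?_⟩
    · exact analyticAt_const.mul (analyticAt_star hg)
    · refine mul_ne_zero (pow_ne_zero _ (by norm_num)) ?_
      simpa using hg0
    · filter_upwards [continuous_J.continuousAt.eventually hge] with z hz
      rw [hz, smul_eq_mul, smul_eq_mul, map_mul, map_pow]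
      have e : (starRingEnd ℂ) (J z - J s) = -1 * (z - s) := by
        simp [J]
      rw [e, mul_pow]
      ring

lemma diff_inv_arch (μ : Fin m → ℂ) : Differentiable ℂ fun s => (archFactor μ s)⁻¹ := by
  have h : (fun s => (archFactor μ s)⁻¹) = fun s => ∏ j, (Gammaℝ (s - μ j))⁻¹ := by
    funext s
    rw [archFactor, Finset.prod_inv_distrib]
  rw [h]
  apply Differentiable.fun_finsetProd
  intro j _
  exact differentiable_Gammaℝ_inv.comp (differentiable_id.sub_const _)

lemma inv_arch_ne {π : LData m} {s : ℂ} (hs : 1 / 2 < s.re) : (archFactor π.μ s)⁻¹ ≠ 0 := by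
  apply inv_ne_zero
  rw [archFactor_ne_zero_iff]
  intro j
  apply Gammaℝ_ne_zero_of_re_pos
  have := π.re_μ_lt j
  rw [sub_re]
  linarith

/-- The order of vanishing at reflected points. -/
theorem order_refl (π : LData m) {w : ℂ} (hw : w.re < 1 / 2) (hL : AnalyticAt ℂ π.L w)
    (hL' : AnalyticAt ℂ π.L (J w)) : analyticOrderAt π.L w =
      analyticOrderAt π.L (J w) + analyticOrderAt (fun s => (archFactor π.μ s)⁻¹) w := by
  obtain ⟨ε, hε, hfe⟩ := Pool.Agent.H51.DZ.functional_at π
  have hN : (π.N : ℂ) ≠ 0 := by exact_mod_cast π.N_ne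
  set B : ℂ → ℂ := fun s => (archFactor π.μ s)⁻¹ with hB
  have hBd : Differentiable ℂ B := diff_inv_arch π.μ
  set E : ℂ → ℂ := fun s => ε * (π.N : ℂ) ^ (1 / 2 - s) with hE
  have hEd : Differentiable ℂ E := by
    intro s
    exact (differentiableAt_const ε).mul (((differentiableAt_const _).sub
      differentiableAt_id).const_cpow (Or.inl hN))
  have hE0 : E w ≠ 0 := by
    rw [hE]
    refine mul_ne_zero ?_ ?_
    · rw [← norm_ne_zero_iff, hε]; norm_num
    · rw [Ne, cpow_eq_zero_iff]
      tauto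
  have h1 : (fun s => π.L s * (starRingEnd ℂ) (B (J s))) =ᶠ[𝓝 w]
      (fun s => E s * (starRingEnd ℂ) (π.L (J s)) * B s) := by
    have e1 : ∀ᶠ s in 𝓝 w, AnalyticAt ℂ π.L s := hL.eventually_analyticAt
    have e2 : ∀ᶠ s in 𝓝 w, AnalyticAt ℂ π.L (J s) :=
      continuous_J.continuousAt.eventually hL'.eventually_analyticAt
    filter_upwards [e1, e2] with s h1 h2
    exact hfe s h1.continuousAt h2.continuousAt
  have h2 := analyticOrderAt_congr h1
  have hBs : AnalyticAt ℂ (fun s => (starRingEnd ℂ) (B (J s))) w :=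
    analyticAt_star (hBd.analyticAt _)
  have hLs : AnalyticAt ℂ (fun s => (starRingEnd ℂ) (π.L (J s))) w := analyticAt_star hL'
  have e1 : analyticOrderAt (fun s => π.L s * (starRingEnd ℂ) (B (J s))) w =
      analyticOrderAt π.L w + analyticOrderAt (fun s => (starRingEnd ℂ) (B (J s))) w :=
    analyticOrderAt_mul hL hBs
  have e2 : analyticOrderAt (fun s => E s * (starRingEnd ℂ) (π.L (J s)) * B s) w =
      analyticOrderAt (fun s => E s * (starRingEnd ℂ) (π.L (J s))) w + analyticOrderAt B w :=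
    analyticOrderAt_mul ((hEd.analyticAt w).mul hLs) (hBd.analyticAt w)
  have e3 : analyticOrderAt (fun s => E s * (starRingEnd ℂ) (π.L (J s))) w =
      analyticOrderAt E w + analyticOrderAt (fun s => (starRingEnd ℂ) (π.L (J s))) w :=
    analyticOrderAt_mul (hEd.analyticAt w) hLs
  have e4 : analyticOrderAt E w = 0 := by
    rw [(hEd.analyticAt w).analyticOrderAt_eq_zero]; exact hE0
  have e5 : analyticOrderAt (fun s => (starRingEnd ℂ) (B (J s))) w = 0 := by
    rw [hBs.analyticOrderAt_eq_zero]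
    have : B (J w) ≠ 0 := inv_arch_ne (by rw [J_re]; linarith)
    simpa using this
  rw [e1, e2, e3, e4, e5, order_star hL', add_zero, zero_add] at h2
  exact h2

/-- The zeros of `1 / Γ_ℝ` are simple. -/
lemma gamma_order (n : ℕ) : ∀ s : ℂ, -(2 * (n : ℝ)) < s.re →
    analyticOrderAt (fun z => (Gammaℝ z)⁻¹) s ≤ 1 := by
  have hA : ∀ s, AnalyticAt ℂ (fun z => (Gammaℝ z)⁻¹) s := fun s =>
    differentiable_Gammaℝ_inv.analyticAt s
  induction n with
  | zero =>
    intro s hs
    have : analyticOrderAt (fun z => (Gammaℝ z)⁻¹) s = 0 := by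
      rw [(hA s).analyticOrderAt_eq_zero]
      exact inv_ne_zero (Gammaℝ_ne_zero_of_re_pos (by simpa using hs))
    rw [this]
    exact zero_le_one
  | succ n ih =>
    intro s hs
    have hpi : (2 * (Real.pi : ℂ)) ≠ 0 := by
      have : (Real.pi : ℂ) ≠ 0 := by exact_mod_cast Real.pi_pos.ne'
      simpa using this
    have hrec : (fun z => (Gammaℝ z)⁻¹) =
        fun z => (Gammaℝ (z + 2))⁻¹ * (z / (2 * (Real.pi : ℂ))) := by
      funext z
      by_cases hz : z = 0
      · rw [hz]
        have : Gammaℝ 0 = 0 := by rw [Gammaℝ_eq_zero_iff]; exact ⟨0, by simp⟩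
        simp [this]
      · exact Pool.Agent.H34.DZ.Gammaℝ_inv_shift z hz
    have h2 : AnalyticAt ℂ (fun z => (Gammaℝ (z + 2))⁻¹) s :=
      (differentiable_Gammaℝ_inv.comp (differentiable_id.add_const (2:ℂ))).analyticAt s
    have h3 : AnalyticAt ℂ (fun z : ℂ => z / (2 * (Real.pi : ℂ))) s :=
      (differentiable_id.div_const _).analyticAt s
    have h4 : analyticOrderAt (fun z => (Gammaℝ (z + 2))⁻¹ * (z / (2 * (Real.pi : ℂ)))) s =
        analyticOrderAt (fun z => (Gammaℝ (z + 2))⁻¹) s +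
          analyticOrderAt (fun z : ℂ => z / (2 * (Real.pi : ℂ))) s := analyticOrderAt_mul h2 h3
    rw [hrec, h4]
    by_cases hz : s = 0
    · have e1 : analyticOrderAt (fun z => (Gammaℝ (z + 2))⁻¹) s = 0 := by
        rw [h2.analyticOrderAt_eq_zero]
        exact inv_ne_zero (Gammaℝ_ne_zero_of_re_pos (by rw [hz]; simp))
      have e2 : analyticOrderAt (fun z : ℂ => z / (2 * (Real.pi : ℂ))) s = 1 := by
        apply h3.analyticOrderAt_eq_one_of_zero_deriv_ne_zero
        · rw [hz]; simp
        · rw [deriv_div_const, deriv_id'']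
          exact one_div_ne_zero hpi
      rw [e1, e2, zero_add]
    · have e1 : analyticOrderAt (fun z => (Gammaℝ (z + 2))⁻¹) s =
          analyticOrderAt (fun z => (Gammaℝ z)⁻¹) (s + 2) := by
        have := analyticOrderAt_comp_of_deriv_ne_zero (f := fun z => (Gammaℝ z)⁻¹)
          (g := fun z : ℂ => z + 2) (z₀ := s) ((differentiable_id.add_const (2:ℂ)).analyticAt s)
          (by simp)
        exact this
      have e2 : analyticOrderAt (fun z : ℂ => z / (2 * (Real.pi : ℂ))) s = 0 := by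
        rw [h3.analyticOrderAt_eq_zero]
        exact div_ne_zero hz hpi
      rw [e1, e2, add_zero]
      apply ih
      rw [add_re]
      push_cast at hs
      simp
      linarith

lemma gamma_order_le (s : ℂ) : analyticOrderAt (fun z => (Gammaℝ z)⁻¹) s ≤ 1 := by
  obtain ⟨n, hn⟩ := exists_nat_gt (-s.re)
  apply gamma_order n
  have : (0:ℝ) ≤ n := Nat.cast_nonneg n
  linarith

open Classical in
lemma arch_order_le (μ : Fin m → ℂ) (s : ℂ) (T : Finset (Fin m)) :
    analyticOrderAt (fun z => ∏ j ∈ T, (Gammaℝ (z - μ j))⁻¹) s ≤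
      ((∑ j ∈ T, (if Gammaℝ (s - μ j) = 0 then 1 else 0) : ℕ) : ℕ∞) := by
  have hA : ∀ j, AnalyticAt ℂ (fun z => (Gammaℝ (z - μ j))⁻¹) s := fun j =>
    (differentiable_Gammaℝ_inv.comp (differentiable_id.sub_const (μ j))).analyticAt s
  induction T using Finset.induction_on with
  | empty =>
    simp only [Finset.prod_empty, Finset.sum_empty]
    rw [analyticAt_const.analyticOrderAt_eq_zero.mpr one_ne_zero]
    simp
  | insert j T hj ih =>
    have h1 : (fun z => ∏ j ∈ insert j T, (Gammaℝ (z - μ j))⁻¹) =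
        (fun z => (Gammaℝ (z - μ j))⁻¹) * (fun z => ∏ j ∈ T, (Gammaℝ (z - μ j))⁻¹) := by
      funext z
      rw [Finset.prod_insert hj]
      rfl
    have h2 : AnalyticAt ℂ (fun z => ∏ j ∈ T, (Gammaℝ (z - μ j))⁻¹) s := by
      apply Finset.analyticAt_fun_prod
      intro j _
      exact hA j
    rw [h1, analyticOrderAt_mul (hA j) h2, Finset.sum_insert hj]
    push_cast
    refine add_le_add ?_ (by exact_mod_cast ih)
    by_cases h : Gammaℝ (s - μ j) = 0
    · rw [if_pos h]
      have := analyticOrderAt_comp_of_deriv_ne_zero (f := fun z => (Gammaℝ z)⁻¹)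
          (g := fun z : ℂ => z - μ j) (z₀ := s) ((differentiable_id.sub_const (μ j)).analyticAt s)
          (by simp)
      have e : analyticOrderAt (fun z => (Gammaℝ (z - μ j))⁻¹) s =
          analyticOrderAt (fun z => (Gammaℝ z)⁻¹) (s - μ j) := this
      rw [e]
      exact_mod_cast gamma_order_le _
    · rw [if_neg h, (hA j).analyticOrderAt_eq_zero.mpr (inv_ne_zero h)]

open Classical in
lemma inv_arch_order (π : LData m) (s : ℂ) :
    analyticOrderAt (fun z => (archFactor π.μ z)⁻¹) s ≤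
      ((∑ j, (if Gammaℝ (s - π.μ j) = 0 then 1 else 0) : ℕ) : ℕ∞) := by
  have h : (fun s => (archFactor π.μ s)⁻¹) = fun s => ∏ j, (Gammaℝ (s - π.μ j))⁻¹ := by
    funext s
    rw [archFactor, Finset.prod_inv_distrib]
  rw [h]
  exact arch_order_le π.μ s Finset.univ

open Classical in
/-- The number of trivial zeros. -/
lemma trivial_count {μ : ℂ} (hμ : μ.re < 1 / 2) {A : ℝ} (hA : 0 ≤ A) (Z : Finset ℂ)
    (hZ : ∀ z ∈ Z, -A ≤ z.re) :
    ((∑ z ∈ Z, (if Gammaℝ (z - μ) = 0 then 1 else 0) : ℕ) : ℝ) ≤ A + 2 := by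
  rw [Finset.sum_boole]
  set N : ℕ := ⌊(A + 1 / 2) / 2⌋₊ + 1 with hN
  have hsub : (Z.filter fun z => Gammaℝ (z - μ) = 0) ⊆
      (Finset.range N).image fun n : ℕ => μ - 2 * (n : ℂ) := by
    intro z hz
    rw [Finset.mem_filter] at hz
    obtain ⟨n, hn⟩ := Gammaℝ_eq_zero_iff.mp hz.2
    rw [Finset.mem_image]
    refine ⟨n, ?_, ?_⟩
    · rw [Finset.mem_range, hN, Nat.lt_succ_iff]
      apply Nat.le_floor
      have h1 := hZ z hz.1
      have h2 := congrArg Complex.re hn
      simp at h2
      rw [le_div_iff₀ (by norm_num)]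
      linarith
    · have : z = μ + (z - μ) := by ring
      rw [this, hn]
      ring
  have h1 := (Finset.card_le_card hsub).trans Finset.card_image_le
  rw [Finset.card_range] at h1
  have h2 : (⌊(A + 1 / 2) / 2⌋₊ : ℝ) ≤ (A + 1 / 2) / 2 := Nat.floor_le (by positivity)
  have h3 : (((Z.filter fun z => Gammaℝ (z - μ) = 0).card : ℕ) : ℝ) ≤ N := by exact_mod_cast h1
  rw [hN] at h3
  push_cast at h3 ⊢
  linarith

open Classical in
/-- The orders of vanishing at reflected points, in natural numbers. -/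
lemma orderNat_refl (π : LData m) {w : ℂ} (hw : w.re < 1 / 2) :
    analyticOrderNatAt π.L (J w) ≤ analyticOrderNatAt π.L w ∧
      analyticOrderNatAt π.L w ≤ analyticOrderNatAt π.L (J w) +
        ∑ j, (if Gammaℝ (w - π.μ j) = 0 then 1 else 0) := by
  have key : AnalyticAt ℂ π.L w → AnalyticAt ℂ π.L (J w) →
      analyticOrderNatAt π.L (J w) ≤ analyticOrderNatAt π.L w ∧
      analyticOrderNatAt π.L w ≤ analyticOrderNatAt π.L (J w) +
        ∑ j, (if Gammaℝ (w - π.μ j) = 0 then 1 else 0) := by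
    intro h1 h2
    have h3 := order_refl π hw h1 h2
    have h4 := inv_arch_order π w
    have h5 : analyticOrderAt (fun z => (archFactor π.μ z)⁻¹) w ≠ ⊤ :=
      ne_top_of_le_ne_top (ENat.natCast_ne_top _) h4
    by_cases htop : analyticOrderAt π.L (J w) = ⊤
    · have h6 : analyticOrderAt π.L w = ⊤ := by rw [h3, htop, top_add]
      rw [analyticOrderNatAt, analyticOrderNatAt, htop, h6]
      simp
    · obtain ⟨a, ha⟩ := ENat.ne_top_iff_exists.mp htop
      obtain ⟨b, hb⟩ := ENat.ne_top_iff_exists.mp h5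
      rw [← ha, ← hb] at h3
      rw [← hb] at h4
      have h7 : analyticOrderAt π.L w = ((a + b : ℕ) : ℕ∞) := by rw [h3]; push_cast; rfl
      have h8 : b ≤ ∑ j, (if Gammaℝ (w - π.μ j) = 0 then 1 else 0) := by exact_mod_cast h4
      rw [analyticOrderNatAt, analyticOrderNatAt, h7, ← ha, ENat.toNat_natCast, ENat.toNat_natCast]
      omega
  rcases π.regular with ⟨h, _⟩ | ⟨_, _, _, h⟩
  · exact key (h.analyticAt w) (h.analyticAt _)
  · have hzeta : ∀ s : ℂ, s ≠ 1 → AnalyticAt ℂ riemannZeta s := by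
      intro s hs
      rw [analyticAt_iff_eventually_differentiableAt]
      filter_upwards [isOpen_ne.mem_nhds hs] with z hz
      exact differentiableAt_riemannZeta hz
    by_cases hw0 : w = 0
    · have hJ : J w = 1 := by rw [hw0]; simp [J]
      have e1 : analyticOrderNatAt π.L w = 0 := by
        have : analyticOrderAt π.L w = 0 := by
          rw [analyticOrderAt_eq_zero]
          right
          rw [h, hw0, riemannZeta_zero]
          norm_num
        rw [analyticOrderNatAt, this]; rfl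
      have e2 : analyticOrderNatAt π.L (J w) = 0 := by
        have : analyticOrderAt π.L (J w) = 0 := by
          rw [analyticOrderAt_eq_zero]
          right
          rw [h, hJ]
          exact riemannZeta_one_ne_zero
        rw [analyticOrderNatAt, this]; rfl
      rw [e1, e2]
      exact ⟨le_rfl, Nat.zero_le _⟩
    · apply key
      · rw [h]
        apply hzeta
        rintro rfl
        simp at hw
        linarith
      · rw [h]
        apply hzeta
        intro hJ
        apply hw0
        rw [← J_J w, hJ]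
        simp [J]

/-- Zeros to the right from zeros to the left. -/
theorem right_of_left (π : LData m) {A δ y₁ y₂ n : ℝ} (hδ : 0 < δ)
    (h : FewIn π.L (-A) (1 / 2 - δ) y₁ y₂ n) : FewIn π.L (1 / 2 + δ) (1 + A) y₁ y₂ n := by
  classical
  intro Z hZ
  have hJinj : Function.Injective J := fun a b hab => by rw [← J_J a, hab, J_J]
  refine le_trans ?_ (h (Z.image J) ?_)
  · rw [Finset.sum_image fun a _ b _ hab => hJinj hab]
    have : ∑ z ∈ Z, analyticOrderNatAt π.L z ≤ ∑ z ∈ Z, analyticOrderNatAt π.L (J z) := by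
      apply Finset.sum_le_sum
      intro z hz
      have h1 := (orderNat_refl π (w := J z) (by rw [J_re]; linarith [(hZ z hz).1])).1
      rwa [J_J] at h1
    exact_mod_cast this
  · intro w hw
    obtain ⟨z, hz, rfl⟩ := Finset.mem_image.mp hw
    obtain ⟨h1, h2, h3, h4⟩ := hZ z hz
    rw [J_re, J_im]
    exact ⟨by linarith, by linarith, h3, h4⟩

/-- Zeros to the left from zeros to the right. -/
theorem left_of_right (π : LData m) {A δ y₁ y₂ n : ℝ} (hδ : 0 < δ) (hA : 0 ≤ A)
    (h : FewIn π.L (1 / 2 + δ) (1 + A) y₁ y₂ n) :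
    FewIn π.L (-A) (1 / 2 - δ) y₁ y₂ (n + m * (A + 2)) := by
  classical
  intro Z hZ
  have hJinj : Function.Injective J := fun a b hab => by rw [← J_J a, hab, J_J]
  have h1 := h (Z.image J) (by
    intro w hw
    obtain ⟨z, hz, rfl⟩ := Finset.mem_image.mp hw
    obtain ⟨h1, h2, h3, h4⟩ := hZ z hz
    rw [J_re, J_im]
    exact ⟨by linarith, by linarith, h3, h4⟩)
  rw [Finset.sum_image fun a _ b _ hab => hJinj hab] at h1
  have h2 : ∑ z ∈ Z, analyticOrderNatAt π.L z ≤ ∑ z ∈ Z, analyticOrderNatAt π.L (J z) +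
      ∑ j, ∑ z ∈ Z, (if Gammaℝ (z - π.μ j) = 0 then 1 else 0) := by
    rw [Finset.sum_comm, ← Finset.sum_add_distrib]
    apply Finset.sum_le_sum
    intro z hz
    exact (orderNat_refl π (w := z) (by linarith [(hZ z hz).2.1])).2
  have h3 : ((∑ j, ∑ z ∈ Z, (if Gammaℝ (z - π.μ j) = 0 then 1 else 0) : ℕ) : ℝ) ≤
      m * (A + 2) := by
    rw [Nat.cast_sum]
    calc ∑ j : Fin m, ((∑ z ∈ Z, (if Gammaℝ (z - π.μ j) = 0 then 1 else 0) : ℕ) : ℝ)
        ≤ ∑ _j : Fin m, (A + 2) := by
          apply Finset.sum_le_sum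
          intro j _
          exact trivial_count (π.re_μ_lt j) hA Z fun z hz => (hZ z hz).1
      _ = m * (A + 2) := by simp [mul_add]
  have h4 : ((∑ z ∈ Z, analyticOrderNatAt π.L z : ℕ) : ℝ) ≤
      ((∑ z ∈ Z, analyticOrderNatAt π.L (J z) : ℕ) : ℝ) +
      ((∑ j, ∑ z ∈ Z, (if Gammaℝ (z - π.μ j) = 0 then 1 else 0) : ℕ) : ℝ) := by
    exact_mod_cast h2
  linarith

end Pool.Agent.H23.DZ
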