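import Pool.Agent.H23.DZ.Fin
import Pool.Agent.H23.DZ.Refl

/-!
# The equivalences for `MP_52e316_nt`
-/

set_option autoImplicit false

open Complex

namespace Pool.Agent.H23.DZ

open Pool.Agent.H23.GLM Pool.Agent.H23.GLH

lemma exp_small {ε : ℝ} (hε : 0 < ε) : ∃ η : ℝ, 0 < η ∧ η ≤ ε ∧ Real.exp (-(ε / η)) ≤ η ∧
    Real.exp (-(ε / η)) ≤ 1 := by
  set η := min ε (ε ^ 2 / 2) with hη
  have hη0 : 0 < η := lt_min hε (by positivity)
  have hη1 : η ≤ ε := min_le_left _ _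
  have hη2 : η ≤ ε ^ 2 / 2 := min_le_right _ _
  have hx : 0 < ε / η := by positivity
  have hexp : Real.exp (-(ε / η)) ≤ η := by
    rw [Real.exp_neg]
    have h1 : (ε / η) ^ 2 / 2 ≤ Real.exp (ε / η) := by
      have := Real.quadratic_le_exp_of_nonneg hx.le
      linarith
    have h3 : 1 / η ≤ Real.exp (ε / η) := by
      refine le_trans ?_ h1
      rw [div_pow, div_div, div_le_div_iff₀ hη0 (by positivity)]
      nlinarith
    rw [inv_le_comm₀ (Real.exp_pos _) hη0]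
    rwa [one_div] at h3
  have hexp1 : Real.exp (-(ε / η)) ≤ 1 := by
    rw [Real.exp_le_one_iff]
    linarith
  exact ⟨η, hη0, hη1, hexp, hexp1⟩

theorem equivalences (m : ℕ) (S : Set (LData m)) (hm : 1 ≤ m) (hM : Molteni S)
    (hF : FarBounds S) (k : ℕ) : List.TFAE [
      GLH S,
      ∀ δ κ : ℝ, 0 < δ → 0 < κ → ∃ K : ℝ, ∀ π ∈ S, ∀ t : ℝ, K ≤ π.X t →
        FewZeros π.L {s | 1 / 2 + δ ≤ s.re ∧ t ≤ s.im ∧ s.im ≤ t + 1} (κ * Real.log (π.X t)),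
      ∀ ε : ℝ, 0 < ε → ∃ η : ℝ, 0 < η ∧ η ≤ ε ∧ ∀ δ κ : ℝ, 0 < δ → 0 < κ → ∃ K : ℝ,
        ∀ π ∈ S, ∀ t : ℝ, K ≤ π.X t → ∃ a : ℝ, t ≤ a ∧ a + Real.exp (-(ε / η)) ≤ t + η ∧
          FewZeros π.L {s | 1 / 2 + δ ≤ s.re ∧ s.re ≤ 2 ∧ a ≤ s.im ∧
            s.im ≤ a + Real.exp (-(ε / η))} (κ * Real.log (π.X t)),
      ∀ A δ κ : ℝ, 0 < δ → 0 < κ → ∃ K : ℝ, ∀ π ∈ S, ∀ t : ℝ, K ≤ π.X t →
        FewZeros (iteratedDeriv k π.L) {s | -A ≤ s.re ∧ s.re ≤ 1 / 2 - δ ∧ t ≤ s.im ∧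
          s.im ≤ t + 1} (κ * Real.log (π.X t)),
      ∀ ε : ℝ, 0 < ε → ∃ η : ℝ, 0 < η ∧ η ≤ ε ∧ ∀ δ κ : ℝ, 0 < δ → 0 < κ → ∃ K : ℝ,
        ∀ π ∈ S, ∀ t : ℝ, K ≤ π.X t → ∃ a : ℝ, t ≤ a ∧ a + Real.exp (-(ε / η)) ≤ t + η ∧
          FewZeros (iteratedDeriv k π.L) {s | -1 ≤ s.re ∧ s.re ≤ 1 / 2 - δ ∧ a ≤ s.im ∧
            s.im ≤ a + Real.exp (-(ε / η))} (κ * Real.log (π.X t))] := by
  classical
  have h0 := main hm hM hF 0
  have hk := main hm hM hF k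
  have h01 := h0.out 0 1
  have h03 := h0.out 0 2
  have hk1 := hk.out 0 1
  have hk3 := hk.out 0 2
  simp only [iteratedDeriv_zero] at h01 h03
  tfae_have 1 → 2 := by
    intro h δ κ hδ hκ
    obtain ⟨σ₁, c, hc, hfar⟩ := hF
    obtain ⟨K, hK⟩ := h01.mp h |σ₁| δ κ hδ hκ
    refine ⟨K, fun π hπ t ht Z hZ => ?_⟩
    have h2 := right_of_left π hδ (hK π hπ t ht)
    have h3 := h2 (Z.filter fun z => z.re ≤ 1 + |σ₁|) (by
      intro z hz
      rw [Finset.mem_filter] at hz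
      obtain ⟨h4, h5, h6⟩ := hZ z hz.1
      exact ⟨h4, hz.2, h5, h6⟩)
    have h4 : ∑ z ∈ Z, analyticOrderNatAt π.L z =
        ∑ z ∈ Z with z.re ≤ 1 + |σ₁|, analyticOrderNatAt π.L z := by
      rw [Finset.sum_filter]
      refine Finset.sum_congr rfl fun z hz => ?_
      split_ifs with h5
      · rfl
      · have h6 : π.L z ≠ 0 := by
          have h7 := (hfar π hπ z (by
            have := le_abs_self σ₁
            push Not at h5
            linarith)).1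
          rw [← norm_pos_iff]
          linarith
        have h8 : analyticOrderAt π.L z = 0 := by
          rw [analyticOrderAt_eq_zero]
          exact Or.inr h6
        rw [analyticOrderNatAt, h8]
        rfl
    rw [h4]
    exact h3
  tfae_have 2 → 3 := by
    intro h ε hε
    obtain ⟨η, hη0, hη1, hexp, hexp1⟩ := exp_small hε
    refine ⟨η, hη0, hη1, fun δ κ hδ hκ => ?_⟩
    obtain ⟨K, hK⟩ := h δ κ hδ hκ
    refine ⟨K, fun π hπ t ht => ⟨t, le_rfl, by linarith, ?_⟩⟩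
    intro Z hZ
    refine hK π hπ t ht Z fun z hz => ?_
    obtain ⟨h4, h5, h6, h7⟩ := hZ z hz
    exact ⟨h4, h6, by linarith⟩
  tfae_have 3 → 1 := by
    intro h
    apply h03.mpr
    intro ε hε
    obtain ⟨η, hη0, hη1, h3⟩ := h ε hε
    refine ⟨η, hη0, hη1, fun δ κ hδ hκ => ?_⟩
    obtain ⟨K, hK⟩ := h3 δ (κ / 2) hδ (by positivity)
    refine ⟨max K (Real.exp (6 * m / κ)), fun π hπ t ht => ?_⟩
    have ht1 : K ≤ π.X t := (le_max_left _ _).trans ht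
    have ht2 : Real.exp (6 * m / κ) ≤ π.X t := (le_max_right _ _).trans ht
    have hX0 : 0 < π.X t := (Real.exp_pos _).trans_le ht2
    have hlog : 6 * m / κ ≤ Real.log (π.X t) := by
      rw [Real.le_log_iff_exp_le hX0]; exact ht2
    rw [div_le_iff₀ hκ] at hlog
    obtain ⟨a, ha1, ha2, hfew⟩ := hK π hπ t ht1
    refine ⟨a, ha1, ha2, ?_⟩
    have h4 : FewIn π.L (1 / 2 + δ) (1 + 1) a (a + Real.exp (-(ε / η)))
        (κ / 2 * Real.log (π.X t)) := by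
      intro Z hZ
      refine hfew Z fun z hz => ?_
      obtain ⟨h5, h6, h7, h8⟩ := hZ z hz
      exact ⟨h5, by linarith, h7, h8⟩
    have h5 := left_of_right π hδ zero_le_one h4
    intro Z hZ
    refine (h5 Z hZ).trans ?_
    linarith
  tfae_have 1 → 4 := by
    intro h A δ κ hδ hκ
    obtain ⟨K, hK⟩ := hk1.mp h A δ κ hδ hκ
    exact ⟨K, fun π hπ t ht Z hZ => hK π hπ t ht Z hZ⟩
  tfae_have 4 → 5 := by
    intro h ε hε
    obtain ⟨η, hη0, hη1, hexp, hexp1⟩ := exp_small hε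
    refine ⟨η, hη0, hη1, fun δ κ hδ hκ => ?_⟩
    obtain ⟨K, hK⟩ := h 1 δ κ hδ hκ
    refine ⟨K, fun π hπ t ht => ⟨t, le_rfl, by linarith, ?_⟩⟩
    intro Z hZ
    refine hK π hπ t ht Z fun z hz => ?_
    obtain ⟨h4, h5, h6, h7⟩ := hZ z hz
    exact ⟨h4, h5, h6, by linarith⟩
  tfae_have 5 → 1 := by
    intro h
    apply hk3.mpr
    intro ε hε
    obtain ⟨η, hη0, hη1, h3⟩ := h ε hε
    refine ⟨η, hη0, hη1, fun δ κ hδ hκ => ?_⟩
    obtain ⟨K, hK⟩ := h3 δ κ hδ hκ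
    refine ⟨K, fun π hπ t ht => ?_⟩
    obtain ⟨a, ha1, ha2, hfew⟩ := hK π hπ t ht
    exact ⟨a, ha1, ha2, fun Z hZ => hfew Z hZ⟩
  tfae_finish

end Pool.Agent.H23.DZ
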