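import Pool.Agent.H23.DZ.Targets
import Pool.Agent.H92.DZ.A2
import Pool.Agent.H61.GLH.TwoConst
import Pool.Agent.H61.GLH.CircleCount

/-!
# Module A4 for `MP_52e316_nt`, part 1: from a disc to a thin strip, functions without zeros
-/

set_option autoImplicit false

open Complex Set Metric

namespace Pool.Agent.H23.DZ

open Pool.Agent.H61.GLH (exists_log rect Phi schwarz_bound closure_rect)

/-- Two logarithms on a convex open set differ by a constant. -/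
lemma log_unique {U V : Set ℂ} (hU : IsOpen U) (hV : IsOpen V) (hUV : IsPreconnected (U ∩ V))
    {g h1 h2 : ℂ → ℂ} (hd1 : DifferentiableOn ℂ h1 U) (hd2 : DifferentiableOn ℂ h2 V)
    (he1 : ∀ z ∈ U, exp (h1 z) = g z) (he2 : ∀ z ∈ V, exp (h2 z) = g z) {p : ℂ} (hp : p ∈ U ∩ V) :
    ∀ z ∈ U ∩ V, h2 z - h1 z = h2 p - h1 p := by
  intro z hz
  have hO : IsOpen (U ∩ V) := hU.inter hV
  have hsub : DifferentiableOn ℂ (fun z => h2 z - h1 z) (U ∩ V) :=
    (hd2.mono inter_subset_right).sub (hd1.mono inter_subset_left)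
  have hder : ∀ z ∈ U ∩ V, deriv (fun z => h2 z - h1 z) z = 0 := by
    intro z hz
    have a1 : HasDerivAt h1 (deriv h1 z) z :=
      ((hd1 z hz.1).differentiableAt (hU.mem_nhds hz.1)).hasDerivAt
    have a2 : HasDerivAt h2 (deriv h2 z) z :=
      ((hd2 z hz.2).differentiableAt (hV.mem_nhds hz.2)).hasDerivAt
    have a3 : HasDerivAt g (exp (h1 z) * deriv h1 z) z := by
      refine (a1.cexp).congr_of_eventuallyEq ?_
      filter_upwards [hU.mem_nhds hz.1] with y hy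
      rw [he1 y hy]
    have a4 : HasDerivAt g (exp (h2 z) * deriv h2 z) z := by
      refine (a2.cexp).congr_of_eventuallyEq ?_
      filter_upwards [hV.mem_nhds hz.2] with y hy
      rw [he2 y hy]
    have a5 := a3.unique a4
    rw [he1 z hz.1, he2 z hz.2] at a5
    have hg0 : g z ≠ 0 := by rw [← he1 z hz.1]; exact exp_ne_zero _
    have a6 := mul_left_cancel₀ hg0 a5
    have a7 : HasDerivAt (fun z => h2 z - h1 z) (deriv h2 z - deriv h1 z) z := a2.sub a1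
    rw [a7.deriv, a6, sub_self]
  exact hO.is_const_of_deriv_eq_zero hUV hsub hder hz hp

/-- The distance of the edge of the thin rectangle from the centre of the large disc. -/
lemma edge_dist {σ y : ℝ} (hσ : 5 ≤ σ) (hy : |y| ≤ 1) {z : ℂ} (hre : z.re = σ - 1 / 2)
    (him : z.im = y) : ‖z‖ ≤ σ - 3 / 8 := by
  have h0 : 0 ≤ σ - 3 / 8 := by linarith
  rw [← abs_of_nonneg h0, ← sq_le_sq₀ (norm_nonneg _) (abs_nonneg _), sq_abs,
    Complex.sq_norm, Complex.normSq_apply, hre, him]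
  have h1 : y * y ≤ 1 := by
    have := abs_le.mp hy
    nlinarith [this.1, this.2]
  nlinarith

theorem ext_core {h : ℂ → ℂ} {σ₀ t a l δ B₁ M' b : ℝ} (hσ : σ₀ ≤ -5) (hta : t ≤ a)
    (hal : a + l ≤ t + 1) (hl : 0 < l) (hδ : 0 < δ) (hδ1 : δ ≤ 1 / 8)
    (hh : DifferentiableOn ℂ h {s | s.re < 3 / 4})
    (h1 : ∀ z ∈ ball ((σ₀ : ℂ) + t * I) (-σ₀ - 1 / 8), h z ≠ 0)
    (h2 : ∀ z : ℂ, -1 < z.re → z.re < 1 / 2 - δ → a < z.im → z.im < a + l → h z ≠ 0)
    (hB : ∀ z ∈ ball ((σ₀ : ℂ) + t * I) (-σ₀ - 1 / 8),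
      ‖h z‖ ≤ ‖h ((σ₀ : ℂ) + t * I)‖ * Real.exp B₁) (hB1 : 0 < B₁)
    (hM : ∀ z : ℂ, -(1 / 2) ≤ z.re → z.re ≤ 1 / 2 - 3 * δ / 2 → a + l / 8 ≤ z.im →
      z.im ≤ a + 7 * l / 8 → ‖h z‖ ≤ ‖h ((σ₀ : ℂ) + t * I)‖ * Real.exp M')
    (hb : 8 * (-σ₀) * B₁ ≤ b) (hbM : b ≤ M') {s : ℂ} (hs1 : -(1 / 2) ≤ s.re)
    (hs2 : s.re ≤ 1 / 2 - 3 * δ / 2) (hs3 : a + l / 8 ≤ s.im) (hs4 : s.im ≤ a + 7 * l / 8) :
    ‖h s‖ ≤ ‖h ((σ₀ : ℂ) + t * I)‖ * Real.exp (4 * M' * (b / M') ^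
      Phi (1 - 3 * δ / 2) (3 * l / 4)
        (((1 / 2 - 3 * δ / 2 : ℝ) : ℂ) + ((a + l / 2 : ℝ) : ℂ) * I - s)) := by
  set s₀ : ℂ := (σ₀ : ℂ) + t * I with hs₀
  have hs₀re : s₀.re = σ₀ := by simp [hs₀]
  have hs₀im : s₀.im = t := by simp [hs₀]
  set R : ℝ := -σ₀ - 1 / 8 with hR
  have hR0 : 0 < R := by linarith
  have hb0 : 0 < b := by
    have : 0 < 8 * (-σ₀) * B₁ := by
      have : 0 < -σ₀ := by linarith
      positivity
    linarith
  have hM'0 : 0 < M' := by linarith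
  set U : Set ℂ := ball s₀ R with hU
  have hUo : IsOpen U := isOpen_ball
  have hUc : Convex ℝ U := convex_ball _ _
  have hs₀U : s₀ ∈ U := mem_ball_self hR0
  set V : Set ℂ := Ioo (-1) (1 / 2 - δ) ×ℂ Ioo a (a + l) with hV
  have hVo : IsOpen V := isOpen_Ioo.reProdIm isOpen_Ioo
  have hVc : Convex ℝ V := by
    have e : V = ({z : ℂ | -1 < z.re} ∩ {z : ℂ | z.re < 1 / 2 - δ}) ∩
        ({z : ℂ | a < z.im} ∩ {z : ℂ | z.im < a + l}) := by
      ext z
      rw [hV, mem_reProdIm]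
      rfl
    rw [e]
    exact ((convex_halfSpace_re_gt _).inter (convex_halfSpace_re_lt _)).inter
      ((convex_halfSpace_im_gt _).inter (convex_halfSpace_im_lt _))
  set H : Set ℂ := {s : ℂ | s.re < 3 / 4} with hH
  have hHo : IsOpen H := isOpen_lt continuous_re continuous_const
  have hUH : U ⊆ H := by
    intro z hz
    rw [hU, mem_ball, dist_eq_norm] at hz
    have e1 : (z - s₀).re ≤ ‖z - s₀‖ := re_le_norm _
    rw [sub_re, hs₀re] at e1
    show z.re < 3 / 4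
    linarith
  have hVH : V ⊆ H := by
    intro z hz
    rw [hV, mem_reProdIm] at hz
    show z.re < 3 / 4
    linarith [hz.1.2]
  -- the edge
  have hedge : ∀ y : ℝ, a < y → y < a + l → ‖((-(1 / 2) : ℝ) : ℂ) + y * I - s₀‖ ≤ R - 1 / 4 := by
    intro y hy1 hy2
    have e1 := edge_dist (σ := -σ₀) (y := y - t) (by linarith)
      (by rw [abs_le]; constructor <;> linarith) (z := ((-(1 / 2) : ℝ) : ℂ) + y * I - s₀)
      (by simp [hs₀re]; ring) (by simp [hs₀im])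
    rw [hR]; linarith
  have hedgeU : ∀ y : ℝ, a < y → y < a + l → (((-(1 / 2) : ℝ) : ℂ) + y * I) ∈ U ∩ V := by
    intro y hy1 hy2
    refine ⟨?_, ?_⟩
    · rw [hU, mem_ball, dist_eq_norm]
      have := hedge y hy1 hy2
      linarith
    · rw [hV, mem_reProdIm]
      refine ⟨⟨?_, ?_⟩, ⟨?_, ?_⟩⟩
      · simp; norm_num
      · simp; linarith
      · simpa using hy1
      · simpa using hy2
  set p : ℂ := ((-(1 / 2) : ℝ) : ℂ) + ((a + l / 2 : ℝ) : ℂ) * I with hp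
  have hpUV : p ∈ U ∩ V := hedgeU _ (by linarith) (by linarith)
  -- logarithms
  obtain ⟨g1, hg1d, hg1e⟩ := exists_log hUo hUc ⟨s₀, hs₀U⟩ (hh.mono hUH) h1
  obtain ⟨g2, hg2d, hg2e⟩ := exists_log hVo hVc ⟨p, hpUV.2⟩ (hh.mono hVH) (by
    intro z hz
    rw [hV, mem_reProdIm] at hz
    exact h2 z hz.1.1 hz.1.2 hz.2.1 hz.2.2)
  have hUVc : Convex ℝ (U ∩ V) := hUc.inter hVc
  have hconst := log_unique hUo hVo hUVc.isPreconnected hg1d hg2d hg1e hg2e hpUV
  set c₀ : ℂ := g2 p - g1 p with hc₀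
  have hc₀e : exp c₀ = 1 := by
    have hne : h p ≠ 0 := h1 p hpUV.1
    rw [hc₀, exp_sub, hg2e p hpUV.2, hg1e p hpUV.1, div_self hne]
  have hhs₀ : h s₀ ≠ 0 := h1 s₀ hs₀U
  have hhs₀n : 0 < ‖h s₀‖ := norm_pos_iff.mpr hhs₀
  -- Borel-Caratheodory in the disc
  have hBC : ∀ z ∈ U, ‖z - s₀‖ ≤ R - 1 / 4 → ‖g1 z - g1 s₀‖ ≤ b := by
    intro z hzU hz
    have hR4 : 0 ≤ R - 1 / 4 := le_trans (norm_nonneg _) hz
    have hd : DifferentiableOn ℂ (fun w => g1 (w + s₀) - g1 s₀) (ball 0 R) := by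
      intro w hw
      have hw' : w + s₀ ∈ U := by
        rw [hU, mem_ball, dist_eq_norm, add_sub_cancel_right]
        simpa using hw
      have := ((hg1d _ hw').differentiableAt (hUo.mem_nhds hw'))
      exact ((this.comp w (differentiableAt_id.add_const s₀)).sub_const _).differentiableWithinAt
    have hmap : Set.MapsTo (fun w => g1 (w + s₀) - g1 s₀) (ball 0 R) {z | z.re ≤ B₁} := by
      intro w hw
      have hw' : w + s₀ ∈ U := by
        rw [hU, mem_ball, dist_eq_norm, add_sub_cancel_right]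
        simpa using hw
      show (g1 (w + s₀) - g1 s₀).re ≤ B₁
      rw [← Real.exp_le_exp, ← norm_exp, exp_sub, hg1e _ hw', hg1e _ hs₀U, norm_div,
        div_le_iff₀ hhs₀n, mul_comm]
      exact hB _ hw'
    have h3 := borelCaratheodory_zero hB1 hd hmap hR0 (z := z - s₀) (by
      rw [mem_ball_zero_iff]; linarith) (by simp)
    simp only [sub_add_cancel] at h3
    refine h3.trans (le_trans ?_ hb)
    rw [div_le_iff₀ (by linarith)]
    have e1 : 1 / 4 ≤ R - ‖z - s₀‖ := by linarith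
    have e2 : ‖z - s₀‖ ≤ -σ₀ := by linarith
    have e3 : 0 ≤ 8 * (-σ₀) * B₁ := by
      have : 0 < -σ₀ := by linarith
      positivity
    calc 2 * B₁ * ‖z - s₀‖ ≤ 2 * B₁ * (-σ₀) := by gcongr
      _ = 8 * (-σ₀) * B₁ * (1 / 4) := by ring
      _ ≤ _ := by gcongr
  -- the function in the rectangle
  set f2 : ℂ → ℂ := fun z => g2 z - c₀ - g1 s₀ with hf2
  have hf2e : ∀ z ∈ V, exp (f2 z) = h z / h s₀ := by
    intro z hz
    rw [hf2]; simp only
    rw [exp_sub, exp_sub, hc₀e, div_one, hg2e z hz, hg1e s₀ hs₀U]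
  have hf2n : ∀ z ∈ V, ‖h z‖ = ‖h s₀‖ * Real.exp (f2 z).re := by
    intro z hz
    rw [← norm_exp, hf2e z hz, norm_div]
    field_simp
  set W : ℝ := 1 - 3 * δ / 2 with hW
  set Ht : ℝ := 3 * l / 4 with hHt
  have hW0 : 0 < W := by linarith
  have hHt0 : 0 < Ht := by positivity
  set q : ℂ := ((1 / 2 - 3 * δ / 2 : ℝ) : ℂ) + ((a + l / 2 : ℝ) : ℂ) * I with hq
  have hqre : q.re = 1 / 2 - 3 * δ / 2 := by simp [hq]
  have hqim : q.im = a + l / 2 := by simp [hq]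
  have hmem : ∀ z ∈ closure (rect W Ht), -(1 / 2) ≤ (q - z).re ∧
      (q - z).re ≤ 1 / 2 - 3 * δ / 2 ∧ a + l / 8 ≤ (q - z).im ∧ (q - z).im ≤ a + 7 * l / 8 := by
    intro z hz
    rw [closure_rect hW0 hHt0, mem_reProdIm] at hz
    obtain ⟨⟨b1, b2⟩, ⟨b3, b4⟩⟩ := hz
    rw [sub_re, sub_im, hqre, hqim]
    refine ⟨by linarith, by linarith, ?_, ?_⟩ <;> linarith
  have hmemV : ∀ z ∈ closure (rect W Ht), q - z ∈ V := by
    intro z hz
    obtain ⟨b1, b2, b3, b4⟩ := hmem z hz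
    rw [hV, mem_reProdIm]
    exact ⟨⟨by linarith, by linarith⟩, ⟨by linarith, by linarith⟩⟩
  have hHd : DiffContOnCl ℂ (fun z => f2 (q - z)) (rect W Ht) := by
    apply DifferentiableOn.diffContOnCl
    intro z hz
    have hd : DifferentiableAt ℂ f2 (q - z) :=
      (((hg2d _ (hmemV z hz)).differentiableAt (hVo.mem_nhds (hmemV z hz))).sub_const _).sub_const _
    exact (hd.comp z (differentiableAt_id.const_sub q)).differentiableWithinAt
  have hre : ∀ z ∈ closure (rect W Ht), (f2 (q - z)).re ≤ M' := by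
    intro z hz
    obtain ⟨b1, b2, b3, b4⟩ := hmem z hz
    have e1 := hM _ b1 b2 b3 b4
    rw [hf2n _ (hmemV z hz)] at e1
    have e2 := le_of_mul_le_mul_left e1 hhs₀n
    exact Real.exp_le_exp.mp e2
  have hed : ∀ z ∈ closure (rect W Ht), z.re = W → ‖f2 (q - z)‖ ≤ b := by
    intro z hz hzW
    obtain ⟨b1, b2, b3, b4⟩ := hmem z hz
    have e0 : q - z = ((-(1 / 2) : ℝ) : ℂ) + (((q - z).im : ℝ) : ℂ) * I := by
      apply Complex.ext
      · rw [sub_re, hqre, hzW, hW]; simp; ring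
      · simp
    have e1 := hedge (q - z).im (by linarith) (by linarith)
    have e2 := hedgeU (q - z).im (by linarith) (by linarith)
    rw [← e0] at e1 e2
    have e3 := hconst _ e2
    have e4 : f2 (q - z) = g1 (q - z) - g1 s₀ := by
      rw [hf2]; simp only
      rw [← e3]; ring
    rw [e4]
    exact hBC _ e2.1 e1
  have hsc : q - s ∈ closure (rect W Ht) := by
    rw [closure_rect hW0 hHt0, mem_reProdIm, sub_re, sub_im, hqre, hqim]
    exact ⟨⟨by linarith, by linarith⟩, ⟨by linarith, by linarith⟩⟩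
  have hsb := schwarz_bound hW0 hHt0 hb0 hbM hHd hre hed hsc
  simp only [sub_sub_cancel] at hsb
  have hsV : s ∈ V := by
    have := hmemV _ hsc
    rwa [sub_sub_cancel] at this
  rw [hf2n s hsV]
  gcongr

end Pool.Agent.H23.DZ
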