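import Pool.Agent.H23.DZ.Ext1
import Pool.Agent.H61.GLH.Equiv

/-!
# Module A4 for `MP_52e316_nt`, part 2: dividing out the zeros
-/

set_option autoImplicit false

open Complex Set Metric

namespace Pool.Agent.H23.DZ

open Pool.Agent.H61.GLH (rect Phi factor_finset quotient_bound jensen_count finite_zeros)

/-- Points of the thin rectangle lie in the large disc. -/
lemma rect_dist {σ₀ : ℝ} (hσ : σ₀ ≤ -5) {z : ℂ} (h1 : σ₀ ≤ z.re) (h2 : z.re ≤ 1 / 2)
    {t : ℝ} (h3 : |z.im - t| ≤ 1) : ‖z - ((σ₀ : ℂ) + t * I)‖ ≤ -σ₀ + 5 / 8 := by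
  have h0 : 0 ≤ -σ₀ + 5 / 8 := by linarith
  have e1 : (z - ((σ₀ : ℂ) + t * I)).re = z.re - σ₀ := by simp
  have e2 : (z - ((σ₀ : ℂ) + t * I)).im = z.im - t := by simp
  rw [← abs_of_nonneg h0, ← sq_le_sq₀ (norm_nonneg _) (abs_nonneg _), sq_abs,
    Complex.sq_norm, Complex.normSq_apply, e1, e2]
  have h4 : (z.im - t) * (z.im - t) ≤ 1 := by
    have := abs_le.mp h3
    nlinarith [this.1, this.2]
  have h5 : (z.re - σ₀) * (z.re - σ₀) ≤ (1 / 2 - σ₀) * (1 / 2 - σ₀) :=
    mul_self_le_mul_self (by linarith) (by linarith)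
  nlinarith

/-- Lower bound for the exponent of the two constants theorem in the middle of the rectangle. -/
lemma Phi_ge {l δ : ℝ} (hl : 0 < l) (hδ : 0 < δ) (hδ1 : δ ≤ 1 / 8) {z : ℂ} (h1 : δ / 2 ≤ z.re)
    (h2 : |z.im| ≤ l / 4) :
    Real.sinh (Real.pi * (δ / 2) / (3 * l / 4)) * (1 / 2) /
      Real.sinh (Real.pi * (1 - 3 * δ / 2) / (3 * l / 4)) ≤ Phi (1 - 3 * δ / 2) (3 * l / 4) z := by
  have hπ := Real.pi_pos
  have hW : 0 < 1 - 3 * δ / 2 := by linarith
  have hd : 0 < Real.sinh (Real.pi * (1 - 3 * δ / 2) / (3 * l / 4)) := by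
    rw [Real.sinh_pos_iff]; positivity
  have hs0 : 0 < Real.sinh (Real.pi * (δ / 2) / (3 * l / 4)) := by
    rw [Real.sinh_pos_iff]; positivity
  have hs1 : Real.sinh (Real.pi * (δ / 2) / (3 * l / 4)) ≤
      Real.sinh (Real.pi * z.re / (3 * l / 4)) := by
    rw [Real.sinh_le_sinh]; gcongr
  have hc : 1 / 2 ≤ Real.cos (Real.pi * z.im / (3 * l / 4)) := by
    rw [← Real.cos_abs, ← Real.cos_pi_div_three]
    apply Real.cos_le_cos_of_nonneg_of_le_pi (abs_nonneg _) (by linarith)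
    rw [abs_div, abs_mul, abs_of_pos hπ, abs_of_pos (by positivity : 0 < 3 * l / 4),
      div_le_iff₀ (by positivity)]
    have : Real.pi / 3 * (3 * l / 4) = Real.pi * (l / 4) := by ring
    rw [this]
    gcongr
  rw [Phi]
  gcongr
  exact hs0.le.trans hs1

theorem ext_abs {K₁ M l δ ε : ℝ} (hK : 5 ≤ K₁) (hM : 1 ≤ M) (hl : 0 < l) (hl1 : l ≤ 1)
    (hδ : 0 < δ) (hδ1 : δ ≤ 1 / 8) (hε : 0 < ε) : ∃ η : ℝ, 0 < η ∧
    ∀ (g : ℂ → ℂ) (σ₀ t a Λ : ℝ), 0 < Λ → -K₁ ≤ σ₀ → σ₀ ≤ -5 → t ≤ a → a + l ≤ t + 1 →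
      DifferentiableOn ℂ g {s | s.re < 3 / 4} →
      Real.exp (-(η * Λ)) ≤ ‖g ((σ₀ : ℂ) + t * I)‖ →
      (∀ s : ℂ, -(2 * K₁) ≤ s.re → s.re ≤ -(1 / 16) → |s.im - t| ≤ K₁ →
        ‖g s‖ ≤ Real.exp (η * Λ)) →
      (∀ s : ℂ, -2 ≤ s.re → s.re ≤ 9 / 16 → |s.im - t| ≤ 2 → ‖g s‖ ≤ Real.exp (M * Λ)) →
      FewIn g (-1) (1 / 2 - δ) a (a + l) (η * Λ) →
      ∀ s : ℂ, -(1 / 2) ≤ s.re → s.re ≤ 1 / 2 - 2 * δ → a + l / 4 ≤ s.im →
        s.im ≤ a + 3 * l / 4 → ‖g s‖ ≤ Real.exp (ε * Λ) := by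
  classical
  have hπ := Real.pi_pos
  set φ₀ : ℝ := Real.sinh (Real.pi * (δ / 2) / (3 * l / 4)) * (1 / 2) /
      Real.sinh (Real.pi * (1 - 3 * δ / 2) / (3 * l / 4)) with hφ₀
  have hφ0 : 0 < φ₀ := by
    have hW : 0 < 1 - 3 * δ / 2 := by linarith
    have hd : 0 < Real.sinh (Real.pi * (1 - 3 * δ / 2) / (3 * l / 4)) := by
      rw [Real.sinh_pos_iff]; positivity
    have hs0 : 0 < Real.sinh (Real.pi * (δ / 2) / (3 * l / 4)) := by
      rw [Real.sinh_pos_iff]; positivity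
    positivity
  set τ : ℝ := min 1 ((ε / (8 * (M + 1))) ^ (1 / φ₀)) with hτ
  have hτ0 : 0 < τ := lt_min one_pos (by positivity)
  have hτ1 : τ ≤ 1 := min_le_left _ _
  have hτ2 : τ ^ φ₀ ≤ ε / (8 * (M + 1)) := by
    calc τ ^ φ₀ ≤ ((ε / (8 * (M + 1))) ^ (1 / φ₀)) ^ φ₀ :=
          Real.rpow_le_rpow hτ0.le (min_le_right _ _) hφ0.le
      _ = ε / (8 * (M + 1)) := by
          rw [← Real.rpow_mul (by positivity), one_div_mul_cancel hφ0.ne', Real.rpow_one]
  set D : ℝ := 2 * K₁ + 2 with hD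
  have hD1 : 1 ≤ D := by linarith
  have hD0 : 0 < D := by linarith
  set r : ℝ := min (l / 8) (δ / 2) with hr
  have hr0 : 0 < r := lt_min (by positivity) (by positivity)
  have hrl : r ≤ l / 8 := min_le_left _ _
  have hrδ : r ≤ δ / 2 := min_le_right _ _
  have hr1 : r ≤ 1 := by linarith
  set L₀ : ℝ := Real.log (16 * D) + Real.log (1 / r) with hL₀
  have hL1 : 0 ≤ Real.log (16 * D) := Real.log_nonneg (by linarith)
  have hL2 : 0 ≤ Real.log (1 / r) := Real.log_nonneg (by rw [le_div_iff₀ hr0]; linarith)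
  have hL3 : 0 ≤ Real.log D := Real.log_nonneg hD1
  have hL4 : Real.log D ≤ Real.log (16 * D) := Real.log_le_log hD0 (by linarith)
  have hL00 : 0 ≤ L₀ := by positivity
  set E : ℝ := 35 * K₁ * (1 + L₀) with hE
  have hE0 : 0 < E := by positivity
  set η : ℝ := min 1 (min (ε / 2) τ) / (8 * K₁ * E) with hη
  have hη0 : 0 < η := by
    have : 0 < min 1 (min (ε / 2) τ) := lt_min one_pos (lt_min (by positivity) hτ0)
    positivity
  have hKE : 8 * K₁ * (E * η) = min 1 (min (ε / 2) τ) := by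
    rw [hη]; field_simp
  have hEη0 : 0 < E * η := by positivity
  have hEη : E * η ≤ 8 * K₁ * (E * η) := by nlinarith
  have hE1 : E * η ≤ 1 := by
    have : min 1 (min (ε / 2) τ) ≤ 1 := min_le_left _ _
    linarith
  have hE2 : E * η ≤ ε / 2 := by
    have : min 1 (min (ε / 2) τ) ≤ ε / 2 := (min_le_right _ _).trans (min_le_left _ _)
    linarith
  have hE3 : 8 * K₁ * (E * η) ≤ τ := by
    rw [hKE]
    exact (min_le_right _ _).trans (min_le_right _ _)
  have hEν : 2 * η + 33 * K₁ * η * L₀ ≤ E * η := by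
    rw [hE]
    have e1 : 0 ≤ K₁ * η * L₀ := by positivity
    have e2 : η ≤ K₁ * η := by nlinarith
    nlinarith
  refine ⟨η, hη0, ?_⟩
  intro g σ₀ t a Λ hΛ hσ1 hσ2 hta hal hg hlow hup hpoly hfew s hs1 hs2 hs3 hs4
  set s₀ : ℂ := (σ₀ : ℂ) + t * I with hs₀
  have hs₀re : s₀.re = σ₀ := by simp [hs₀]
  have hs₀im : s₀.im = t := by simp [hs₀]
  set H : Set ℂ := {s : ℂ | s.re < 3 / 4} with hH
  have hHo : IsOpen H := isOpen_lt continuous_re continuous_const
  have hHc : Convex ℝ H := convex_halfSpace_re_lt _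
  have hga : AnalyticOnNhd ℂ g H := hg.analyticOnNhd hHo
  have hgs₀ : g s₀ ≠ 0 := by
    rw [← norm_pos_iff]
    exact (Real.exp_pos _).trans_le hlow
  have hs₀H : s₀ ∈ H := by
    show s₀.re < 3 / 4
    rw [hs₀re]; linarith
  set R₂ : ℝ := -σ₀ + 5 / 8 with hR₂
  have hR₂0 : 0 < R₂ := by linarith
  have hB2 : closedBall s₀ R₂ ⊆ H := by
    intro z hz
    rw [mem_closedBall, dist_eq_norm] at hz
    have e1 : (z - s₀).re ≤ ‖z - s₀‖ := re_le_norm _
    rw [sub_re, hs₀re] at e1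
    show z.re < 3 / 4
    linarith
  obtain ⟨hfin, hord⟩ := finite_zeros (hga.mono hB2) (mem_closedBall_self hR₂0.le) hgs₀
  set R₀ : ℝ := -σ₀ - 1 / 8 with hR₀
  set R₁ : ℝ := -σ₀ - 1 / 16 with hR₁
  have hR₀0 : 0 < R₀ := by linarith
  have hR₁0 : 0 < R₁ := by linarith
  set V : Set ℂ := {z : ℂ | -1 < z.re ∧ z.re < 1 / 2 - δ ∧ a < z.im ∧ z.im < a + l} with hV
  set Z : Finset ℂ := hfin.toFinset.filter (fun z => z ∈ ball s₀ R₀ ∨ z ∈ V) with hZ
  have hVd : ∀ z ∈ V, ‖z - s₀‖ ≤ R₂ := by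
    intro z hz
    exact rect_dist hσ2 (by linarith [hz.1]) (by linarith [hz.2.1])
      (by rw [abs_le]; constructor <;> linarith [hz.2.2.1, hz.2.2.2])
  have hZmem : ∀ z, z ∈ Z ↔ (g z = 0 ∧ (z ∈ ball s₀ R₀ ∨ z ∈ V)) := by
    intro z
    rw [hZ, Finset.mem_filter, Set.Finite.mem_toFinset]
    constructor
    · rintro ⟨⟨_, h1⟩, h2⟩
      exact ⟨h1, h2⟩
    · rintro ⟨h1, h2⟩
      refine ⟨⟨?_, h1⟩, h2⟩
      rw [mem_closedBall, dist_eq_norm]
      rcases h2 with h2 | h2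
      · rw [mem_ball, dist_eq_norm] at h2; linarith
      · exact hVd z h2
  have hZB : ∀ z ∈ Z, z ∈ closedBall s₀ R₂ := by
    intro z hz
    rw [hZ, Finset.mem_filter, Set.Finite.mem_toFinset] at hz
    exact hz.1.1
  have hZH : ∀ z ∈ Z, z ∈ H := fun z hz => hB2 (hZB z hz)
  obtain ⟨k, hka, hke, hkZ⟩ := factor_finset hHo Z hga hZH (fun w hw => hord w (hZB w hw))
  set mu : ℂ → ℕ := fun w => analyticOrderNatAt g w with hmu
  set n : ℕ := ∑ w ∈ Z, mu w with hn
  have hk0 : ∀ z ∈ H, (z ∈ ball s₀ R₀ ∨ z ∈ V) → k z ≠ 0 := by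
    intro z hz h1 h0
    by_cases hgz : g z = 0
    · exact hkZ z ((hZmem z).mpr ⟨hgz, h1⟩) h0
    · apply hgz; rw [hke z hz, h0, mul_zero]
  -- the number of zeros
  have hsplit : n = (∑ w ∈ Z with w ∈ ball s₀ R₀, mu w) + ∑ w ∈ Z with w ∉ ball s₀ R₀, mu w :=
    (Finset.sum_filter_add_sum_filter_not Z (fun w => w ∈ ball s₀ R₀) mu).symm
  set n₁ : ℕ := ∑ w ∈ Z with w ∈ ball s₀ R₀, mu w with hn₁
  set n₂ : ℕ := ∑ w ∈ Z with w ∉ ball s₀ R₀, mu w with hn₂
  have hn2 : (n₂ : ℝ) ≤ η * Λ := by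
    apply hfew
    intro z hz
    rw [Finset.mem_filter] at hz
    have h1 := (hZmem z).mp hz.1
    rcases h1.2 with h2 | h2
    · exact absurd h2 hz.2
    · exact ⟨h2.1.le, h2.2.1.le, h2.2.2.1.le, h2.2.2.2.le⟩
  have hB1 : closedBall s₀ R₁ ⊆ H := (closedBall_subset_closedBall (by linarith)).trans hB2
  have hup' : ∀ z : ℂ, ‖z - s₀‖ ≤ R₁ → ‖g z‖ ≤ Real.exp (η * Λ) := by
    intro z hz
    have e1 : |(z - s₀).re| ≤ R₁ := (abs_re_le_norm _).trans hz
    have e2 : |(z - s₀).im| ≤ R₁ := (abs_im_le_norm _).trans hz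
    rw [sub_re, hs₀re, abs_le] at e1
    rw [sub_im, hs₀im] at e2
    exact hup z (by linarith [e1.1]) (by linarith [e1.2]) (by linarith)
  have hn1 : (n₁ : ℝ) ≤ 32 * K₁ * η * Λ := by
    have hJ := jensen_count (M := Real.exp (η * Λ)) hHo hHc.isPreconnected hg hR₀0 hR₁0 hB1 hgs₀
      (fun z hz => hup' z (by rw [mem_sphere, dist_eq_norm] at hz; exact hz.le))
      (Z.filter (fun w => w ∈ ball s₀ R₀)) (by
        intro z hz
        rw [Finset.mem_filter] at hz
        refine ⟨hZH z hz.1, ?_⟩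
        have := hz.2
        rw [mem_ball, dist_eq_norm] at this
        exact this.le)
    have h1 : Real.exp (-(η * Λ)) * R₁ ^ n₁ ≤ Real.exp (η * Λ) * R₀ ^ n₁ :=
      (mul_le_mul_of_nonneg_right hlow (by positivity)).trans hJ
    have h2 := Real.log_le_log (by positivity) h1
    rw [Real.log_mul (Real.exp_ne_zero _) (by positivity), Real.log_mul (Real.exp_ne_zero _)
      (by positivity), Real.log_exp, Real.log_exp, Real.log_pow, Real.log_pow] at h2
    have h3 : 1 / (16 * K₁) ≤ Real.log R₁ - Real.log R₀ := by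
      rw [← Real.log_div hR₁0.ne' hR₀0.ne']
      refine le_trans ?_ (Real.one_sub_inv_le_log_of_pos (by positivity))
      rw [inv_div]
      have e1 : 1 - R₀ / R₁ = 1 / (16 * R₁) := by
        have : R₁ = R₀ + 1 / 16 := by rw [hR₁, hR₀]; ring
        rw [one_sub_div hR₁0.ne', this]
        have h5 : R₀ + 1 / 16 ≠ 0 := by linarith
        field_simp
        ring
      rw [e1]
      gcongr
      linarith
    have h4 : (n₁ : ℝ) * (1 / (16 * K₁)) ≤ 2 * η * Λ := by
      have : (n₁ : ℝ) * (1 / (16 * K₁)) ≤ n₁ * (Real.log R₁ - Real.log R₀) := by gcongr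
      linarith
    rw [mul_one_div, div_le_iff₀ (by positivity)] at h4
    linarith
  have hnle : (n : ℝ) ≤ 33 * K₁ * η * Λ := by
    have e1 : (n : ℝ) = n₁ + n₂ := by rw [hsplit]; push_cast; rfl
    have e2 : η * Λ ≤ K₁ * η * Λ := by
      have : 0 < η * Λ := by positivity
      nlinarith
    rw [e1]; linarith
  have hn0 : (0 : ℝ) ≤ n := Nat.cast_nonneg n
  -- bounds for k
  have hprod : ∀ z : ℂ, ‖z - s₀‖ ≤ R₂ → ∏ w ∈ Z, ‖(z - w) ^ (mu w)‖ ≤ D ^ n := by
    intro z hz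
    calc ∏ w ∈ Z, ‖(z - w) ^ (mu w)‖ ≤ ∏ w ∈ Z, D ^ (mu w) := by
          apply Finset.prod_le_prod
          · intro w _; positivity
          · intro w hw
            rw [norm_pow]
            apply pow_le_pow_left₀ (norm_nonneg _)
            have e1 := hZB w hw
            rw [mem_closedBall, dist_eq_norm] at e1
            have e2 : ‖z - w‖ ≤ ‖z - s₀‖ + ‖w - s₀‖ := by
              have := norm_sub_le (z - s₀) (w - s₀)
              rwa [sub_sub_sub_cancel_right] at this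
            linarith
      _ = D ^ n := by rw [Finset.prod_pow_eq_pow_sum]
  have hquot : ∀ (z : ℂ) (ρ B : ℝ), 0 < ρ → ρ ≤ 1 → closedBall z ρ ⊆ H →
      (∀ w : ℂ, ‖w - z‖ ≤ ρ → ‖g w‖ ≤ B) → ‖k z‖ * ρ ^ n ≤ B := by
    intro z ρ B hρ hρ1 hsub hbd
    have hkd : DiffContOnCl ℂ k (ball z ρ) := by
      apply DifferentiableOn.diffContOnCl
      rw [closure_ball _ hρ.ne']
      exact hka.differentiableOn.mono hsub
    exact quotient_bound (M := B) hρ hkd Z mu (fun w hw => hke w (hsub (sphere_subset_closedBall hw)))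
      (fun w hw => hbd w (by rw [mem_sphere, dist_eq_norm] at hw; exact hw.le))
  have hks₀ : Real.exp (-(η * Λ)) ≤ D ^ n * ‖k s₀‖ := by
    refine hlow.trans ?_
    rw [hke s₀ hs₀H, norm_mul, norm_prod]
    gcongr
    exact hprod s₀ (by rw [sub_self, norm_zero]; exact hR₂0.le)
  have hk16 : ∀ z : ℂ, ‖z - s₀‖ ≤ R₀ → ‖k z‖ ≤ 16 ^ n * Real.exp (η * Λ) := by
    intro z hz
    have h1 := hquot z (1 / 16) (Real.exp (η * Λ)) (by norm_num) (by norm_num) (by
      intro w hw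
      rw [mem_closedBall, dist_eq_norm] at hw
      apply hB1
      rw [mem_closedBall, dist_eq_norm]
      have := norm_add_le (w - z) (z - s₀)
      rw [sub_add_sub_cancel] at this
      linarith) (by
      intro w hw
      apply hup'
      have := norm_add_le (w - z) (z - s₀)
      rw [sub_add_sub_cancel] at this
      linarith)
    rw [one_div, inv_pow, ← div_eq_mul_inv, div_le_iff₀ (by positivity)] at h1
    linarith
  have hpow : ∀ {y : ℝ}, 0 < y → y ^ n = Real.exp (n * Real.log y) := by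
    intro y hy
    rw [Real.exp_nat_mul, Real.exp_log hy]
  have hks₀' : 1 ≤ ‖k s₀‖ * Real.exp (η * Λ + n * Real.log D) := by
    rw [Real.exp_add, ← hpow hD0]
    have := mul_le_mul_of_nonneg_right hks₀ (Real.exp_pos (η * Λ)).le
    rw [← Real.exp_add, neg_add_cancel, Real.exp_zero] at this
    calc (1:ℝ) ≤ _ := this
      _ = _ := by ring
  have hlog16 : Real.log (16 * D) = Real.log 16 + Real.log D :=
    Real.log_mul (by norm_num) hD0.ne'
  -- apply the core
  have hcore := ext_core (h := k) (σ₀ := σ₀) (t := t) (a := a) (l := l) (δ := δ)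
    (B₁ := 2 * (η * Λ) + n * Real.log (16 * D)) (M' := (M + 1) * Λ) (b := τ * Λ)
    hσ2 hta hal hl hδ hδ1 hka.differentiableOn
    (by
      intro z hz
      refine hk0 z ?_ (Or.inl hz)
      apply hB2
      rw [mem_ball, dist_eq_norm] at hz
      rw [mem_closedBall, dist_eq_norm]
      linarith)
    (by
      intro z h1 h2 h3 h4
      refine hk0 z ?_ (Or.inr ⟨h1, h2, h3, h4⟩)
      show z.re < 3 / 4
      linarith)
    (by
      intro z hz
      rw [mem_ball, dist_eq_norm] at hz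
      refine (hk16 z hz.le).trans ?_
      calc (16:ℝ) ^ n * Real.exp (η * Λ)
          ≤ (16:ℝ) ^ n * Real.exp (η * Λ) * (‖k s₀‖ * Real.exp (η * Λ + n * Real.log D)) := by
            apply le_mul_of_one_le_right (by positivity) hks₀'
        _ = ‖k s₀‖ * (Real.exp (n * Real.log 16) * Real.exp (η * Λ) *
            Real.exp (η * Λ + n * Real.log D)) := by rw [hpow (by norm_num : (0:ℝ) < 16)]; ring
        _ = ‖k s₀‖ * Real.exp (2 * (η * Λ) + n * Real.log (16 * D)) := by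
            rw [← Real.exp_add, ← Real.exp_add, hlog16]
            congr 2; ring)
    (by
      have : 0 < η * Λ := by positivity
      have : 0 ≤ (n : ℝ) * Real.log (16 * D) := by positivity
      linarith)
    (by
      intro z h1 h2 h3 h4
      have h5 := hquot z r (Real.exp (M * Λ)) hr0 hr1 (by
        intro w hw
        rw [mem_closedBall, dist_eq_norm] at hw
        have e1 : (w - z).re ≤ ‖w - z‖ := re_le_norm _
        rw [sub_re] at e1
        show w.re < 3 / 4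
        linarith) (by
        intro w hw
        have e1 : |(w - z).re| ≤ r := (abs_re_le_norm _).trans hw
        have e2 : |(w - z).im| ≤ r := (abs_im_le_norm _).trans hw
        rw [sub_re, abs_le] at e1
        rw [sub_im, abs_le] at e2
        refine hpoly w (by linarith [e1.1]) (by linarith [e1.2]) ?_
        rw [abs_le]
        constructor <;> linarith [e2.1, e2.2])
      have h6 : ‖k z‖ ≤ Real.exp (M * Λ + n * Real.log (1 / r)) := by
        rw [Real.exp_add, ← hpow (by positivity), one_div, inv_pow]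
        rw [← div_eq_mul_inv, le_div_iff₀ (by positivity)]
        exact h5
      calc ‖k z‖ ≤ Real.exp (M * Λ + n * Real.log (1 / r)) * 1 := by rw [mul_one]; exact h6
        _ ≤ Real.exp (M * Λ + n * Real.log (1 / r)) *
            (‖k s₀‖ * Real.exp (η * Λ + n * Real.log D)) := by gcongr
        _ = ‖k s₀‖ * Real.exp ((M * Λ + n * Real.log (1 / r)) + (η * Λ + n * Real.log D)) := by
            rw [Real.exp_add (M * Λ + n * Real.log (1 / r))]; ring
        _ ≤ ‖k s₀‖ * Real.exp ((M + 1) * Λ) := by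
            gcongr
            have e0 : Real.log (1 / r) + Real.log D ≤ L₀ := by rw [hL₀]; linarith
            have e1 : (n : ℝ) * (Real.log (1 / r) + Real.log D) ≤ 33 * K₁ * η * Λ * L₀ :=
              mul_le_mul hnle e0 (by positivity) (by positivity)
            have e2 : 33 * K₁ * η * Λ * L₀ + η * Λ ≤ E * η * Λ := by
              have : (2 * η + 33 * K₁ * η * L₀) * Λ ≤ E * η * Λ := by gcongr
              have h7 : 0 < η * Λ := by positivity
              linarith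
            have e3 : E * η * Λ ≤ 1 * Λ := by gcongr
            linarith)
    (by
      have e1 : (n : ℝ) * Real.log (16 * D) ≤ 33 * K₁ * η * Λ * L₀ := by
        rw [hL₀]
        gcongr
        linarith
      have e2 : 2 * (η * Λ) + n * Real.log (16 * D) ≤ E * η * Λ := by
        have : (2 * η + 33 * K₁ * η * L₀) * Λ ≤ E * η * Λ := by gcongr
        linarith
      have e4 : 0 ≤ E * η * Λ := by positivity
      calc 8 * (-σ₀) * (2 * (η * Λ) + n * Real.log (16 * D)) ≤ 8 * K₁ * (E * η * Λ) := by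
            apply mul_le_mul (by linarith) e2 _ (by positivity)
            have : 0 < η * Λ := by positivity
            positivity
        _ = 8 * K₁ * (E * η) * Λ := by ring
        _ ≤ τ * Λ := by gcongr)
    (by gcongr; linarith) (s := s) hs1 (by linarith) (by linarith) (by linarith)
  -- conclusion
  have hsH : s ∈ H := by show s.re < 3 / 4; linarith
  have hsd : ‖s - s₀‖ ≤ R₂ := rect_dist hσ2 (by linarith) (by linarith)
    (by rw [abs_le]; constructor <;> linarith)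
  set q : ℂ := ((1 / 2 - 3 * δ / 2 : ℝ) : ℂ) + ((a + l / 2 : ℝ) : ℂ) * I with hq
  have hqre : q.re = 1 / 2 - 3 * δ / 2 := by simp [hq]
  have hqim : q.im = a + l / 2 := by simp [hq]
  have hPhi := Phi_ge hl hδ hδ1 (z := q - s) (by rw [sub_re, hqre]; linarith)
    (by rw [sub_im, hqim, abs_le]; constructor <;> linarith)
  rw [← hφ₀] at hPhi
  have hfrac : τ * Λ / ((M + 1) * Λ) = τ / (M + 1) := by
    field_simp
  have hτM0 : 0 < τ / (M + 1) := by positivity
  have hτM : τ / (M + 1) ≤ τ := div_le_self hτ0.le (by linarith)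
  have hexp : 4 * ((M + 1) * Λ) * (τ * Λ / ((M + 1) * Λ)) ^ (Phi (1 - 3 * δ / 2) (3 * l / 4) (q - s))
      ≤ ε / 2 * Λ := by
    rw [hfrac]
    have e1 : (τ / (M + 1)) ^ (Phi (1 - 3 * δ / 2) (3 * l / 4) (q - s)) ≤ ε / (8 * (M + 1)) := by
      calc (τ / (M + 1)) ^ (Phi (1 - 3 * δ / 2) (3 * l / 4) (q - s))
          ≤ (τ / (M + 1)) ^ φ₀ :=
            Real.rpow_le_rpow_of_exponent_ge hτM0 (hτM.trans hτ1) hPhi
        _ ≤ τ ^ φ₀ := Real.rpow_le_rpow hτM0.le hτM hφ0.le
        _ ≤ _ := hτ2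
    calc 4 * ((M + 1) * Λ) * (τ / (M + 1)) ^ (Phi (1 - 3 * δ / 2) (3 * l / 4) (q - s))
        ≤ 4 * ((M + 1) * Λ) * (ε / (8 * (M + 1))) := by gcongr
      _ = ε / 2 * Λ := by field_simp; ring
  have hgs : ‖g s‖ ≤ D ^ n * ‖k s‖ := by
    rw [hke s hsH, norm_mul, norm_prod]
    gcongr
    exact hprod s hsd
  have hks0u := hk16 s₀ (by rw [sub_self, norm_zero]; exact hR₀0.le)
  calc ‖g s‖ ≤ D ^ n * ‖k s‖ := hgs
    _ ≤ D ^ n * ((16 ^ n * Real.exp (η * Λ)) * Real.exp (ε / 2 * Λ)) := by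
        gcongr
        refine hcore.trans ?_
        gcongr
    _ = Real.exp (n * Real.log (16 * D) + η * Λ + ε / 2 * Λ) := by
        rw [hpow hD0, hpow (by norm_num : (0:ℝ) < 16), ← Real.exp_add, ← Real.exp_add,
          ← Real.exp_add, hlog16]
        congr 1; ring
    _ ≤ Real.exp (ε * Λ) := by
        gcongr
        have e1 : (n : ℝ) * Real.log (16 * D) ≤ 33 * K₁ * η * Λ * L₀ := by
          rw [hL₀]
          gcongr
          linarith
        have e2 : 33 * K₁ * η * Λ * L₀ + η * Λ ≤ E * η * Λ := by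
          have : (2 * η + 33 * K₁ * η * L₀) * Λ ≤ E * η * Λ := by gcongr
          have h7 : 0 < η * Λ := by positivity
          linarith
        have e3 : E * η * Λ ≤ ε / 2 * Λ := by gcongr
        linarith

end Pool.Agent.H23.DZ
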