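import Pool.Agent.H23.DZ.Ext2

/-!
# Module A4 for `MP_52e316_nt`, part 3: `ExtStmt`
-/

set_option autoImplicit false

open Complex Set Metric

namespace Pool.Agent.H23.DZ

open Pool.Agent.H92.DZ (tw norm_tw diff_tw order_tw diff_iteratedDeriv)

theorem ext (hD : DerivStmt) : ExtStmt := by
  intro ι f Q X m hF k ε δ l hε hδ hδ1 hl hl1
  obtain ⟨K₁, c, hK, hc, hlow⟩ := hF.low k 5
  have hLk := (hD f Q X m hF k).1 0 (by norm_num) hF.left
  obtain ⟨C₂, hC₂, hgrow⟩ := (hD f Q X m hF k).2 2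
  obtain ⟨η, hη0, hext⟩ := ext_abs (K₁ := K₁) (M := C₂ + 2) hK (by linarith) hl hl1 hδ hδ1 hε
  set ε' : ℝ := min (η / 2) (1 / 16) with hε'
  have hε'0 : 0 < ε' := lt_min (by positivity) (by norm_num)
  have hε'1 : ε' ≤ η / 2 := min_le_left _ _
  have hε'2 : ε' ≤ 1 / 16 := min_le_right _ _
  obtain ⟨C₁, hC₁, hleft⟩ := hLk (2 * K₁) ε' hε'0
  set D : ℝ := (1 + K₁) ^ m with hDdef
  have hD1 : 1 ≤ D := one_le_pow₀ (by linarith)
  have hD0 : 0 < D := by linarith
  set C' : ℝ := C₁ * D * D ^ (1 / 2 + 2 * K₁) with hC'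
  have hC'0 : 0 < C' := by positivity
  set C'' : ℝ := C₂ * ((3:ℝ) ^ m) ^ C₂ with hC''
  have hC''0 : 0 < C'' := by positivity
  refine ⟨η, max 2 (max (C' ^ (2 / η)) (max C'' (c⁻¹ ^ (1 / η)))), hη0, ?_⟩
  intro i t a hX hta hal hfew s hs1 hs2 hs3 hs4
  have hX2 : 2 ≤ X i t := (le_max_left _ _).trans hX
  have hX3 : C' ^ (2 / η) ≤ X i t :=
    ((le_max_left _ _).trans (le_max_right _ _)).trans hX
  have hX4 : C'' ≤ X i t :=
    ((le_max_left _ _).trans ((le_max_right _ _).trans (le_max_right _ _))).trans hX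
  have hX5 : c⁻¹ ^ (1 / η) ≤ X i t :=
    ((le_max_right _ _).trans ((le_max_right _ _).trans (le_max_right _ _))).trans hX
  have hQ1 := hF.one_le_Q i t
  have hQ0 : 0 < Q i t := by linarith
  have hX0 : 0 < X i t := by linarith
  have hX1 : 1 ≤ X i t := by linarith
  have hQX := hF.Q_le_X i t
  set Λ : ℝ := Real.log (X i t) with hΛ
  have hΛ0 : 0 < Λ := Real.log_pos (by linarith)
  have hexpX : ∀ y : ℝ, Real.exp (y * Λ) = X i t ^ y := by
    intro y; rw [Real.rpow_def_of_pos hX0, mul_comm]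
  have hC'X : C' ≤ X i t ^ (η / 2) := by
    have h1 : (C' ^ (2 / η)) ^ (η / 2) ≤ X i t ^ (η / 2) :=
      Real.rpow_le_rpow (by positivity) hX3 (by positivity)
    rwa [← Real.rpow_mul hC'0.le, div_mul_div_cancel₀ (by positivity), div_self (by norm_num),
      Real.rpow_one] at h1
  have hcX : c⁻¹ ≤ X i t ^ η := by
    have h1 : (c⁻¹ ^ (1 / η)) ^ η ≤ X i t ^ η :=
      Real.rpow_le_rpow (by positivity) hX5 (by positivity)
    rwa [← Real.rpow_mul (by positivity), one_div_mul_cancel hη0.ne', Real.rpow_one] at h1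
  set F : ℂ → ℂ := iteratedDeriv k (f i) with hFdef
  set g : ℂ → ℂ := fun s => F s * tw (Q i t) s with hg
  have hFd : ∀ s : ℂ, s.re < 3 / 4 → DifferentiableAt ℂ F s := fun s hs =>
    diff_iteratedDeriv (3 / 4) k (f i) (hF.diff i) s hs
  have hgd : DifferentiableOn ℂ g {s | s.re < 3 / 4} := fun s hs =>
    ((hFd s hs).mul (diff_tw _ s)).differentiableWithinAt
  have hgn : ∀ s : ℂ, ‖g s‖ = ‖F s‖ * Q i t ^ (s.re - 1 / 2) := by
    intro s
    rw [hg]; simp only
    rw [norm_mul, norm_tw hQ0]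
  have hcancel : ∀ y : ℝ, Q i t ^ (1 / 2 - y) * Q i t ^ (y - 1 / 2) = 1 := by
    intro y
    rw [← Real.rpow_add hQ0, show 1 / 2 - y + (y - 1 / 2) = 0 by ring, Real.rpow_zero]
  obtain ⟨σ₀, hσ1, hσ2, hσ3⟩ := hlow i t
  have hmain := hext g σ₀ t a Λ hΛ0 hσ1 hσ2 hta hal hgd
    (by
      rw [hgn]
      have e1 : ((σ₀ : ℂ) + t * I).re = σ₀ := by simp
      rw [e1]
      have h1 : Real.exp (-(η * Λ)) ≤ c := by
        rw [Real.exp_neg, hexpX]
        exact inv_le_of_inv_le₀ hc hcX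
      calc Real.exp (-(η * Λ)) ≤ c := h1
        _ = (c * Q i t ^ (1 / 2 - σ₀)) * Q i t ^ (σ₀ - 1 / 2) := by
            rw [mul_assoc, hcancel, mul_one]
        _ ≤ _ := by gcongr)
    (by
      intro z hz1 hz2 hz3
      have h1 := hleft i z hz1 (by linarith)
      have hQz1 := hF.one_le_Q i z.im
      have hXz1 : 1 ≤ X i z.im := hQz1.trans (hF.Q_le_X i z.im)
      have hXz : X i z.im ≤ D * X i t := by
        refine (hF.X_le i t z.im).trans ?_
        rw [hDdef]; gcongr
      have hQz : Q i z.im ≤ D * Q i t := by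
        refine (hF.Q_le i t z.im).trans ?_
        rw [hDdef]; gcongr
      have h4 : X i z.im ^ ε' ≤ D * X i t ^ (η / 2) := by
        calc X i z.im ^ ε' ≤ (D * X i t) ^ ε' := Real.rpow_le_rpow (by linarith) hXz hε'0.le
          _ = D ^ ε' * X i t ^ ε' := Real.mul_rpow (by positivity) hX0.le
          _ ≤ D ^ (1:ℝ) * X i t ^ (η / 2) := by
              gcongr
              linarith
          _ = _ := by rw [Real.rpow_one]
      have h5 : Q i z.im ^ (1 / 2 - z.re) ≤ D ^ (1 / 2 + 2 * K₁) * Q i t ^ (1 / 2 - z.re) := by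
        calc Q i z.im ^ (1 / 2 - z.re) ≤ (D * Q i t) ^ (1 / 2 - z.re) :=
              Real.rpow_le_rpow (by linarith) hQz (by linarith)
          _ = D ^ (1 / 2 - z.re) * Q i t ^ (1 / 2 - z.re) :=
              Real.mul_rpow (by positivity) hQ0.le
          _ ≤ _ := by
              gcongr
              linarith
      rw [hgn, hexpX]
      calc ‖F z‖ * Q i t ^ (z.re - 1 / 2)
          ≤ (C₁ * (D * X i t ^ (η / 2)) * (D ^ (1 / 2 + 2 * K₁) * Q i t ^ (1 / 2 - z.re))) *
            Q i t ^ (z.re - 1 / 2) := by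
            gcongr
            exact h1.trans (by gcongr)
        _ = C' * X i t ^ (η / 2) * (Q i t ^ (1 / 2 - z.re) * Q i t ^ (z.re - 1 / 2)) := by
            rw [hC']; ring
        _ ≤ X i t ^ (η / 2) * X i t ^ (η / 2) := by
            rw [hcancel, mul_one]
            gcongr
        _ = X i t ^ η := by rw [← Real.rpow_add hX0, add_halves])
    (by
      intro z hz1 hz2 hz3
      have h1 := hgrow i z hz1 hz2
      have hQz1 := hF.one_le_Q i z.im
      have hXz1 : 1 ≤ X i z.im := hQz1.trans (hF.Q_le_X i z.im)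
      have hXz : X i z.im ≤ (3:ℝ) ^ m * X i t := by
        refine (hF.X_le i t z.im).trans ?_
        gcongr
        linarith
      have h4 : X i z.im ^ C₂ ≤ ((3:ℝ) ^ m) ^ C₂ * X i t ^ C₂ := by
        calc X i z.im ^ C₂ ≤ ((3:ℝ) ^ m * X i t) ^ C₂ :=
              Real.rpow_le_rpow (by linarith) hXz (by linarith)
          _ = _ := Real.mul_rpow (by positivity) hX0.le
      have h5 : Q i t ^ (z.re - 1 / 2) ≤ X i t := by
        calc Q i t ^ (z.re - 1 / 2) ≤ Q i t ^ (1:ℝ) :=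
              Real.rpow_le_rpow_of_exponent_le hQ1 (by linarith)
          _ = Q i t := Real.rpow_one _
          _ ≤ X i t := hQX
      rw [hgn, hexpX]
      calc ‖F z‖ * Q i t ^ (z.re - 1 / 2)
          ≤ (C₂ * (((3:ℝ) ^ m) ^ C₂ * X i t ^ C₂)) * X i t := by
            gcongr
            exact h1.trans (by gcongr)
        _ = C'' * (X i t ^ C₂ * X i t) := by rw [hC'']; ring
        _ ≤ X i t * (X i t ^ C₂ * X i t) := by gcongr
        _ = X i t ^ (C₂ + 2) := by
            rw [Real.rpow_add hX0, show (2:ℝ) = 1 + 1 by norm_num, Real.rpow_add hX0,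
              Real.rpow_one]
            ring)
    (by
      intro Z hZ
      have e1 : ∑ z ∈ Z, analyticOrderNatAt g z = ∑ z ∈ Z, analyticOrderNatAt F z := by
        refine Finset.sum_congr rfl fun z hz => ?_
        refine order_tw ?_
        have hd : DifferentiableOn ℂ F {s | s.re < 3 / 4} := fun s hs =>
          (hFd s hs).differentiableWithinAt
        refine hd.analyticAt ((isOpen_lt continuous_re continuous_const).mem_nhds ?_)
        show z.re < 3 / 4
        linarith [(hZ z hz).2.1]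
      rw [e1]
      exact hfew Z hZ)
    s hs1 hs2 hs3 hs4
  rw [hexpX, hgn] at hmain
  calc ‖F s‖ = (‖F s‖ * Q i t ^ (s.re - 1 / 2)) * Q i t ^ (1 / 2 - s.re) := by
        rw [mul_assoc, mul_comm (Q i t ^ (s.re - 1 / 2)), hcancel, mul_one]
    _ ≤ X i t ^ ε * Q i t ^ (1 / 2 - s.re) := by gcongr

end Pool.Agent.H23.DZ
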