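import Pool.Agent.H23.DZ.Targets

/-! Taylor polynomials and their coefficients. -/

set_option autoImplicit false

open Complex Set

namespace Pool.Agent.H23.DZ

/-- The coefficients of a polynomial are bounded by its values on a segment. -/
lemma coeff_bound (k : ℕ) {δ : ℝ} (hδ : 0 < δ) : ∃ C : ℝ, 1 ≤ C ∧ ∀ (a : Fin k → ℂ) (B : ℝ), 0 ≤ B →
    (∀ y : ℝ, 0 ≤ y → y ≤ δ → ‖∑ j : Fin k, a j * (-(y : ℂ)) ^ (j : ℕ)‖ ≤ B) →
    ∑ j, ‖a j‖ ≤ C * B := by
  set v : Fin k → ℂ := fun i => -((δ * (i : ℕ) / (k + 1) : ℝ) : ℂ) with hv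
  have hinj : Function.Injective v := by
    intro i j hij
    simp only [hv, neg_inj, ofReal_inj] at hij
    have hk : (0:ℝ) < k + 1 := by positivity
    rw [div_left_inj' hk.ne'] at hij
    have h2 := mul_left_cancel₀ hδ.ne' hij
    exact Fin.ext (by exact_mod_cast h2)
  set V : Matrix (Fin k) (Fin k) ℂ := Matrix.vandermonde v with hV
  have hdet : IsUnit V.det := by
    rw [isUnit_iff_ne_zero]
    exact Matrix.det_vandermonde_ne_zero_iff.mpr hinj
  refine ⟨1 + ∑ j, ∑ i, ‖V⁻¹ j i‖, le_add_of_nonneg_right (by positivity), ?_⟩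
  intro a B hB h
  have hval : ∀ i : Fin k, ‖(V.mulVec a) i‖ ≤ B := by
    intro i
    have h1 : (V.mulVec a) i = ∑ j : Fin k, a j * (v i) ^ (j : ℕ) := by
      rw [Matrix.mulVec, dotProduct]
      refine Finset.sum_congr rfl fun j _ => ?_
      rw [hV, Matrix.vandermonde_apply, mul_comm]
    rw [h1]
    have hi : ((i : ℕ) : ℝ) < k := by exact_mod_cast i.2
    have hi0 : (0:ℝ) ≤ (i : ℕ) := Nat.cast_nonneg _
    refine h (δ * (i : ℕ) / (k + 1)) (by positivity) ?_
    rw [div_le_iff₀ (by positivity)]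
    nlinarith
  have ha : a = V⁻¹.mulVec (V.mulVec a) := by
    rw [Matrix.mulVec_mulVec, Matrix.nonsing_inv_mul _ hdet, Matrix.one_mulVec]
  have h2 : ∀ j, ‖a j‖ ≤ ∑ i, ‖V⁻¹ j i‖ * B := by
    intro j
    rw [ha]
    conv_lhs => rw [Matrix.mulVec, dotProduct]
    refine (norm_sum_le _ _).trans (Finset.sum_le_sum fun i _ => ?_)
    rw [norm_mul]
    gcongr
    exact hval i
  calc ∑ j, ‖a j‖ ≤ ∑ j, ∑ i, ‖V⁻¹ j i‖ * B := Finset.sum_le_sum fun j _ => h2 j
    _ = (∑ j, ∑ i, ‖V⁻¹ j i‖) * B := by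
        rw [Finset.sum_mul]
        refine Finset.sum_congr rfl fun j _ => ?_
        rw [Finset.sum_mul]
    _ ≤ _ := by
        gcongr
        linarith

/-- Taylor polynomials with a remainder bound on all convex sets. -/
lemma exists_taylor {U : Set ℂ} (hU : IsOpen U) {s₁ : ℂ} (k : ℕ) : ∀ {f : ℂ → ℂ},
    (∀ s ∈ U, DifferentiableAt ℂ f s) → ∃ a : Fin k → ℂ, ∀ E ⊆ U, Convex ℝ E → s₁ ∈ E →
      (∀ s ∈ E, ‖s - s₁‖ ≤ 1) → ∀ M : ℝ, (∀ s ∈ E, ‖iteratedDeriv k f s‖ ≤ M) →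
        ∀ s ∈ E, ‖f s - ∑ j : Fin k, a j * (s - s₁) ^ (j : ℕ)‖ ≤ M := by
  induction k with
  | zero =>
    intro f _
    refine ⟨fun _ => 0, fun E _ _ _ _ M hM s hs => ?_⟩
    have := hM s hs
    rw [iteratedDeriv_zero] at this
    simpa using this
  | succ k ih =>
    intro f hf
    have hf' : ∀ s ∈ U, DifferentiableAt ℂ (deriv f) s := by
      intro s hs
      have h1 : DifferentiableOn ℂ f U := fun z hz => (hf z hz).differentiableWithinAt
      exact ((h1.deriv hU) s hs).differentiableAt (hU.mem_nhds hs)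
    obtain ⟨a, ha⟩ := ih hf'
    refine ⟨Fin.cons (f s₁) (fun j => a j / ((j : ℕ) + 1)), ?_⟩
    intro E hE hconv hs₁ hdiam M hM s hs
    have hM' : ∀ s ∈ E, ‖iteratedDeriv k (deriv f) s‖ ≤ M := by
      intro z hz
      have := hM z hz
      rwa [iteratedDeriv_succ'] at this
    have h1 := ha E hE hconv hs₁ hdiam M hM'
    set g : ℂ → ℂ := fun z => f z - ∑ j : Fin (k + 1),
      (Fin.cons (f s₁) (fun j : Fin k => a j / ((j : ℕ) + 1)) : Fin (k + 1) → ℂ) j *
        (z - s₁) ^ (j : ℕ) with hg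
    have hg0 : g s₁ = 0 := by
      simp only [hg]
      rw [Fin.sum_univ_succ]
      simp
    have hgd : ∀ z ∈ E, HasDerivAt g (deriv f z - ∑ j : Fin k, a j * (z - s₁) ^ (j : ℕ)) z := by
      intro z hz
      have e1 : g = fun z => f z - (f s₁ + ∑ j : Fin k, a j / ((j : ℕ) + 1) *
          (z - s₁) ^ ((j : ℕ) + 1)) := by
        funext w
        simp only [hg]
        rw [Fin.sum_univ_succ]
        simp
      rw [e1]
      refine (hf z (hE hz)).hasDerivAt.sub ?_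
      have h2 : HasDerivAt (fun z : ℂ => ∑ j : Fin k, a j / ((j : ℕ) + 1) *
          (z - s₁) ^ ((j : ℕ) + 1)) (∑ j : Fin k, a j * (z - s₁) ^ (j : ℕ)) z := by
        refine HasDerivAt.fun_sum fun j _ => ?_
        have h3 : HasDerivAt (fun z : ℂ => (z - s₁) ^ ((j : ℕ) + 1))
            ((((j : ℕ) + 1 : ℕ) : ℂ) * (z - s₁) ^ (j : ℕ) * 1) z := by
          have := ((hasDerivAt_id z).sub_const s₁).fun_pow ((j : ℕ) + 1)
          simpa using this
        have h4 := h3.const_mul (a j / ((j : ℕ) + 1))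
        refine h4.congr_deriv ?_
        have h6 : (((j : ℕ) : ℂ) + 1) ≠ 0 := by exact_mod_cast Nat.succ_ne_zero (j : ℕ)
        rw [mul_one, ← mul_assoc]
        push_cast
        rw [div_mul_cancel₀ _ h6]
      simpa using h2.const_add (f s₁)
    have h5 := hconv.norm_image_sub_le_of_norm_hasDerivWithin_le
      (f := g) (C := M) (fun z hz => (hgd z hz).hasDerivWithinAt) (fun z hz => h1 z hz) hs₁ hs
    rw [hg0, sub_zero] at h5
    have hM0 : 0 ≤ M := (norm_nonneg _).trans (h1 s₁ hs₁)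
    calc ‖f s - _‖ = ‖g s‖ := rfl
      _ ≤ M * ‖s - s₁‖ := h5
      _ ≤ M * 1 := by gcongr; exact hdiam s hs
      _ = M := mul_one M

end Pool.Agent.H23.DZ
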