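import Pool.Agent.H23.DZ.Poly
import Pool.Agent.H61.GLH.Disc

/-! The slope argument (module A5). -/

set_option autoImplicit false

open Complex Set

namespace Pool.Agent.H23.DZ

open Pool.Agent.H61.GLH

lemma exists_large (D : ℝ) {e : ℝ} (he : 0 < e) : ∃ K : ℝ, 1 ≤ K ∧ ∀ X : ℝ, K ≤ X → D ≤ X ^ e := by
  refine ⟨max 1 (|D| ^ (1 / e)), le_max_left _ _, fun X hX => ?_⟩
  have h1 : |D| ^ (1 / e) ≤ X := (le_max_right _ _).trans hX
  calc D ≤ |D| := le_abs_self D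
    _ = (|D| ^ (1 / e)) ^ e := by
        rw [← Real.rpow_mul (abs_nonneg D), one_div_mul_cancel he.ne', Real.rpow_one]
    _ ≤ X ^ e := Real.rpow_le_rpow (by positivity) h1 he.le

lemma diffContOnCl_crect {f : ℂ → ℂ} (hf : ∀ s : ℂ, s.re < 3 / 4 → DifferentiableAt ℂ f s)
    {x y ρ : ℝ} (hx : 0 < x) (hx4 : x < 1 / 4) (hρ : 0 < ρ) : DiffContOnCl ℂ f (crect x y ρ) := by
  refine DifferentiableOn.diffContOnCl fun s hs => ?_
  rw [crect, closure_reProdIm, closure_Ioo (by linarith), closure_Ioo (by linarith),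
    mem_reProdIm] at hs
  exact (hf s (by linarith [hs.1.2])).differentiableWithinAt

lemma exp_mul_log {X : ℝ} (hX : 0 < X) (a : ℝ) : Real.exp (a * Real.log X) = X ^ a := by
  rw [Real.rpow_def_of_pos hX, mul_comm]

section point

variable {f : ℂ → ℂ} {Q X M₁ C₃ C₄ ε δ r₀ r ρ c u : ℝ} {m k : ℕ}

/-- The two applications of the localised three lines argument. -/
theorem slope_point (hf : ∀ s : ℂ, s.re < 3 / 4 → DifferentiableAt ℂ f s)
    (hQ : 1 ≤ Q) (hQX : Q ≤ X) (hc : 0 < c) (hQc : X ^ c ≤ Q) (hM₁ : 1 ≤ M₁) (hC₃ : 1 ≤ C₃)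
    (hC₄ : 1 ≤ C₄) (hε : 0 < ε) (hρ : 0 < ρ) (hρ1 : ρ ≤ 1 / 8) (hr₀ : 0 < r₀) (hr₀1 : r₀ ≤ 1 / 16)
    (hr : r₀ ≤ r) (hr' : r ≤ 2 * r₀) (hδ : δ = r₀ / 16)
    (hr₀c : 128 * (M₁ + 2) * r₀ ≤ c * ρ ^ 2)
    (hcrude : ∀ s : ℂ, -(1 / 2) ≤ s.re → s.re ≤ 5 / 8 → |s.im - u| ≤ ρ → ‖f s‖ ≤ X ^ M₁)
    (hrefl : ∀ y : ℝ, |y - u| ≤ ρ → ‖f (1 / 2 + r + y * I)‖ ≤
      C₃ * Q ^ (-r) * ‖f (1 / 2 - r + y * I)‖)
    (hF : ∀ s : ℂ, -(1 / 2) ≤ s.re → s.re ≤ 1 / 2 - 2 * δ → |s.im - u| ≤ ρ →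
      ‖iteratedDeriv k f s‖ ≤ X ^ ε * Q ^ (1 / 2 - s.re))
    (hcoef : ∀ (a : Fin k → ℂ) (B : ℝ), 0 ≤ B →
      (∀ y : ℝ, 0 ≤ y → y ≤ 2 * δ → ‖∑ j : Fin k, a j * (-(y : ℂ)) ^ (j : ℕ)‖ ≤ B) →
      ∑ j, ‖a j‖ ≤ C₄ * B)
    (hX1 : C₄ * C₃ * X ^ (-(c * r₀ / 4)) ≤ 1 / 2) :
    ‖f (1 / 2 + u * I)‖ ≤ 4 * C₄ * C₃ * X ^ (ε + 2 * r₀ + c * r₀ / 8) := by
  have hX1' : 1 ≤ X := hQ.trans hQX
  have hX0 : 0 < X := by linarith
  have hQ0 : 0 < Q := by linarith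
  have hδ0 : 0 < δ := by rw [hδ]; positivity
  set s₁ : ℂ := ((1 / 2 - 2 * δ : ℝ) : ℂ) + u * I with hs₁
  have hs₁re : s₁.re = 1 / 2 - 2 * δ := by simp [hs₁]
  have hs₁im : s₁.im = u := by simp [hs₁]
  set U : Set ℂ := {s : ℂ | s.re < 3 / 4} with hU
  have hUo : IsOpen U := isOpen_lt Complex.continuous_re continuous_const
  obtain ⟨a, ha⟩ := exists_taylor hUo (s₁ := s₁) k (f := f) (fun s hs => hf s hs)
  set E : Set ℂ := Icc (1 / 2 - 2 * r₀) (1 / 2 - 2 * δ) ×ℂ Icc (u - ρ) (u + ρ) with hE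
  have hEU : E ⊆ U := by
    intro s hs
    rw [hE, mem_reProdIm] at hs
    show s.re < 3 / 4
    linarith [hs.1.2]
  have hEc : Convex ℝ E := ((convex_Icc _ _).linear_preimage Complex.reLm).inter
    ((convex_Icc _ _).linear_preimage Complex.imLm)
  have hs₁E : s₁ ∈ E := by
    rw [hE, mem_reProdIm, hs₁re, hs₁im]
    refine ⟨⟨?_, le_rfl⟩, ⟨by linarith, by linarith⟩⟩
    rw [hδ]; linarith
  have hdiam : ∀ s ∈ E, ‖s - s₁‖ ≤ 1 := by
    intro s hs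
    rw [hE, mem_reProdIm] at hs
    refine (Complex.norm_le_abs_re_add_abs_im _).trans ?_
    rw [sub_re, sub_im, hs₁re, hs₁im]
    have h1 : |s.re - (1 / 2 - 2 * δ)| ≤ 1 / 8 := by
      rw [abs_le]
      constructor <;> linarith [hs.1.1, hs.1.2]
    have h2 : |s.im - u| ≤ 1 / 8 := by
      rw [abs_le]
      constructor <;> linarith [hs.2.1, hs.2.2]
    linarith
  set B : ℝ := X ^ (ε + 2 * r₀) with hB
  have hB1 : 1 ≤ B := Real.one_le_rpow hX1' (by positivity)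
  have hFE : ∀ s ∈ E, ‖iteratedDeriv k f s‖ ≤ B := by
    intro s hs
    rw [hE, mem_reProdIm] at hs
    have h1 := hF s (by linarith [hs.1.1]) hs.1.2 (by
      rw [abs_le]; constructor <;> linarith [hs.2.1, hs.2.2])
    refine h1.trans ?_
    have h2 : Q ^ (1 / 2 - s.re) ≤ X ^ (2 * r₀) := by
      calc Q ^ (1 / 2 - s.re) ≤ Q ^ (2 * r₀) :=
            Real.rpow_le_rpow_of_exponent_le hQ (by linarith [hs.1.1])
        _ ≤ X ^ (2 * r₀) := Real.rpow_le_rpow hQ0.le hQX (by positivity)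
    calc X ^ ε * Q ^ (1 / 2 - s.re) ≤ X ^ ε * X ^ (2 * r₀) := by gcongr
      _ = B := by rw [← Real.rpow_add hX0]
  have hT := ha E hEU hEc hs₁E hdiam B hFE
  set A : ℝ := ∑ j, ‖a j‖ with hA
  have hA0 : 0 ≤ A := Finset.sum_nonneg fun _ _ => norm_nonneg _
  have hP : ∀ s : ℂ, ‖s - s₁‖ ≤ 1 → ‖∑ j : Fin k, a j * (s - s₁) ^ (j : ℕ)‖ ≤ A := by
    intro s hs
    refine (norm_sum_le _ _).trans (Finset.sum_le_sum fun j _ => ?_)
    rw [norm_mul, norm_pow]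
    have : ‖s - s₁‖ ^ (j : ℕ) ≤ 1 := pow_le_one₀ (norm_nonneg _) hs
    calc ‖a j‖ * ‖s - s₁‖ ^ (j : ℕ) ≤ ‖a j‖ * 1 := by gcongr
      _ = _ := mul_one _
  have hfE : ∀ s ∈ E, ‖f s‖ ≤ A + B := by
    intro s hs
    have h1 := hT s hs
    have h2 := hP s (hdiam s hs)
    calc ‖f s‖ = ‖(∑ j : Fin k, a j * (s - s₁) ^ (j : ℕ)) +
          (f s - ∑ j : Fin k, a j * (s - s₁) ^ (j : ℕ))‖ := by congr 1; ring
      _ ≤ A + B := (norm_add_le _ _).trans (add_le_add h2 h1)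
  -- the two vertical sides
  have hleft : ∀ s : ℂ, s.re = 1 / 2 - r → |s.im - u| ≤ ρ → ‖f s‖ ≤ A + B := by
    intro s h1 h2
    apply hfE
    rw [abs_le] at h2
    rw [hE, mem_reProdIm]
    refine ⟨⟨by linarith, ?_⟩, ⟨by linarith, by linarith⟩⟩
    rw [h1, hδ]; linarith
  have hright : ∀ s : ℂ, s.re = 1 / 2 + r → |s.im - u| ≤ ρ → ‖f s‖ ≤ C₃ * Q ^ (-r) * (A + B) := by
    intro s h1 h2
    have h3 := hrefl s.im h2
    have e1 : (1 / 2 + r + s.im * I : ℂ) = s := by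
      apply Complex.ext
      · simp [h1]
      · simp
    rw [e1] at h3
    refine h3.trans ?_
    have h4 : ‖f (1 / 2 - r + s.im * I)‖ ≤ A + B := by
      apply hleft
      · simp
      · simpa using h2
    have hQr : 0 < Q ^ (-r) := by positivity
    gcongr
  have hside2 : ∀ s : ℂ, |s.re - 1 / 2| = r → s.re = 1 / 2 - r ∨ s.re = 1 / 2 + r := by
    intro s hs
    rcases abs_cases (s.re - 1 / 2) with ⟨h1, _⟩ | ⟨h1, _⟩
    · right; linarith
    · left; linarith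
  have hr0 : 0 < r := by linarith
  have hAB : 1 ≤ A + B := by linarith
  -- exponents
  have hexp4 : 4 * r ^ 2 * (M₁ + 1) / ρ ^ 2 ≤ c * r₀ / 8 := by
    rw [div_le_iff₀ (by positivity)]
    have h1 : r ^ 2 ≤ 4 * r₀ ^ 2 := by nlinarith
    have h2 : 4 * r ^ 2 * (M₁ + 1) ≤ 16 * r₀ ^ 2 * (M₁ + 2) := by nlinarith
    have h3 : 16 * r₀ ^ 2 * (M₁ + 2) = (128 * (M₁ + 2) * r₀) * (r₀ / 8) := by ring
    have h4 : (128 * (M₁ + 2) * r₀) * (r₀ / 8) ≤ (c * ρ ^ 2) * (r₀ / 8) := by gcongr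
    calc 4 * r ^ 2 * (M₁ + 1) ≤ (c * ρ ^ 2) * (r₀ / 8) := by rw [h3] at h2; exact h2.trans h4
      _ = c * r₀ / 8 * ρ ^ 2 := by ring
  -- step A
  set G : ℂ → ℂ := fun s => cexp (((Real.log Q / 2 : ℝ) : ℂ) * (s - 1 / 2)) * f s with hG
  have hGn : ∀ s : ℂ, ‖G s‖ = Q ^ ((s.re - 1 / 2) / 2) * ‖f s‖ := by
    intro s
    rw [hG]
    simp only
    rw [norm_mul, Complex.norm_exp, Complex.re_ofReal_mul]
    congr 1
    rw [← exp_mul_log hQ0]
    congr 1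
    simp
    ring
  set Λ := Real.log X with hΛ
  have hΛ0 : 0 ≤ Λ := Real.log_nonneg hX1'
  set lam : ℝ := (M₁ + 1) * Λ / ρ ^ 2 with hlam
  have hlam0 : 0 ≤ lam := by positivity
  have hlamρ : Real.exp (lam * ρ ^ 2) = X ^ (M₁ + 1) := by
    rw [← exp_mul_log hX0]
    congr 1
    rw [hlam, div_mul_cancel₀ _ (by positivity), hΛ]
  set M : ℝ := C₃ * (A + B) * Q ^ (-(r / 2)) with hM
  have hM0 : 0 ≤ M := by positivity
  have hstepA : ∀ y : ℝ, 0 ≤ y → y ≤ 2 * δ → ‖f (s₁ - y)‖ ≤ C₃ * (A + B) * X ^ (-(c * r₀ / 4)) := by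
    intro y hy hy2
    have hre : (s₁ - y).re = 1 / 2 - 2 * δ - y := by rw [sub_re, hs₁re, ofReal_re]
    have him : (s₁ - y).im = u := by rw [sub_im, hs₁im, ofReal_im, sub_zero]
    have h1 : |(s₁ - y).re - 1 / 2| ≤ r := by
      rw [hre, abs_le]
      constructor
      · rw [hδ] at *; linarith
      · linarith
    have hGd : DiffContOnCl ℂ G (crect r (s₁ - y).im ρ) := by
      refine diffContOnCl_crect (fun s hs => ?_) hr0 (by linarith) hρ
      exact DifferentiableAt.mul (by fun_prop) (hf s hs)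
    have h2 := local_lines (f := G) (x := r) (ρ := ρ) (lam := lam) (M := M) (s0 := s₁ - y) hr0 hρ
      hlam0 h1 hGd (by
        intro s hs1 hs2
        rw [him] at hs2
        rw [hGn]
        rcases hside2 s hs1 with h | h
        · have h3 := hleft s h hs2
          rw [h]
          have e : (1 / 2 - r - 1 / 2) / 2 = -(r / 2) := by ring
          rw [e]
          calc Q ^ (-(r / 2)) * ‖f s‖ ≤ Q ^ (-(r / 2)) * (1 * (A + B)) := by
                rw [one_mul]; gcongr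
            _ ≤ Q ^ (-(r / 2)) * (C₃ * (A + B)) := by gcongr
            _ = M := by rw [hM]; ring
        · have h3 := hright s h hs2
          rw [h]
          have e : (1 / 2 + r - 1 / 2) / 2 = r / 2 := by ring
          rw [e]
          calc Q ^ (r / 2) * ‖f s‖ ≤ Q ^ (r / 2) * (C₃ * Q ^ (-r) * (A + B)) := by gcongr
            _ = C₃ * (A + B) * (Q ^ (r / 2) * Q ^ (-r)) := by ring
            _ = M := by rw [← Real.rpow_add hQ0, hM]; congr 2; ring)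
      (by
        intro s hs1 hs2
        rw [him] at hs2
        rw [hGn, hlamρ]
        rw [abs_le] at hs1
        have h3 := hcrude s (by linarith) (by linarith) hs2.le
        have h4 : Q ^ ((s.re - 1 / 2) / 2) ≤ Q ^ (r / 2) :=
          Real.rpow_le_rpow_of_exponent_le hQ (by linarith)
        have h5 : Q ^ (r / 2) ≤ X * Q ^ (-(r / 2)) := by
          have h6 : Q ^ r ≤ X := by
            calc Q ^ r ≤ Q ^ (1:ℝ) := Real.rpow_le_rpow_of_exponent_le hQ (by linarith)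
              _ = Q := Real.rpow_one _
              _ ≤ X := hQX
          calc Q ^ (r / 2) = Q ^ r * Q ^ (-(r / 2)) := by
                rw [← Real.rpow_add hQ0]; congr 1; ring
            _ ≤ X * Q ^ (-(r / 2)) := by gcongr
        have h7 : 1 ≤ C₃ * (A + B) := one_le_mul_of_one_le_of_one_le hC₃ hAB
        calc Q ^ ((s.re - 1 / 2) / 2) * ‖f s‖ ≤ (X * Q ^ (-(r / 2))) * X ^ M₁ := by
              gcongr
              exact h4.trans h5
          _ = 1 * Q ^ (-(r / 2)) * X ^ (M₁ + 1) := by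
              rw [Real.rpow_add hX0, Real.rpow_one]; ring
          _ ≤ (C₃ * (A + B)) * Q ^ (-(r / 2)) * X ^ (M₁ + 1) := by gcongr
          _ = M * X ^ (M₁ + 1) := by rw [hM])
      hM0
    rw [hGn, hre] at h2
    have h3 : Real.exp (lam * (2 * r) ^ 2) ≤ X ^ (c * r₀ / 8) := by
      rw [← exp_mul_log hX0]
      apply Real.exp_le_exp.mpr
      calc lam * (2 * r) ^ 2 = (4 * r ^ 2 * (M₁ + 1) / ρ ^ 2) * Λ := by rw [hlam]; ring
        _ ≤ _ := by gcongr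
    have e1 : (1 / 2 - 2 * δ - y - 1 / 2) / 2 = -((2 * δ + y) / 2) := by ring
    rw [e1] at h2
    have h4 : ‖f (s₁ - y)‖ = Q ^ ((2 * δ + y) / 2) * (Q ^ (-((2 * δ + y) / 2)) * ‖f (s₁ - y)‖) := by
      rw [← mul_assoc, ← Real.rpow_add hQ0]
      simp
    have h5 : Q ^ ((2 * δ + y) / 2) ≤ Q ^ (2 * δ) :=
      Real.rpow_le_rpow_of_exponent_le hQ (by linarith)
    have h6 : Q ^ (2 * δ) * Q ^ (-(r / 2)) ≤ X ^ (-(3 * c * r₀ / 8)) := by
      rw [← Real.rpow_add hQ0]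
      calc Q ^ (2 * δ + -(r / 2)) ≤ Q ^ (-(3 * r₀ / 8)) :=
            Real.rpow_le_rpow_of_exponent_le hQ (by rw [hδ]; linarith)
        _ ≤ (X ^ c) ^ (-(3 * r₀ / 8)) :=
            Real.rpow_le_rpow_of_nonpos (by positivity) hQc (by
              have : 0 < r₀ := hr₀
              linarith)
        _ = X ^ (-(3 * c * r₀ / 8)) := by
            rw [← Real.rpow_mul hX0.le]; congr 1; ring
    rw [h4]
    calc Q ^ ((2 * δ + y) / 2) * (Q ^ (-((2 * δ + y) / 2)) * ‖f (s₁ - y)‖)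
        ≤ Q ^ (2 * δ) * (M * X ^ (c * r₀ / 8)) := by
          have h7 := h2.trans (mul_le_mul_of_nonneg_left h3 hM0)
          have h8 : 0 ≤ Q ^ (-((2 * δ + y) / 2)) * ‖f (s₁ - y)‖ := by positivity
          exact mul_le_mul h5 h7 h8 (by positivity)
      _ = C₃ * (A + B) * ((Q ^ (2 * δ) * Q ^ (-(r / 2))) * X ^ (c * r₀ / 8)) := by rw [hM]; ring
      _ ≤ C₃ * (A + B) * (X ^ (-(3 * c * r₀ / 8)) * X ^ (c * r₀ / 8)) := by gcongr
      _ = _ := by rw [← Real.rpow_add hX0]; congr 2; ring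
  -- the coefficients
  have hcoefA : A ≤ C₄ * (C₃ * (A + B) * X ^ (-(c * r₀ / 4)) + B) := by
    refine hcoef a _ (by positivity) fun y hy hy2 => ?_
    have hmem : s₁ - y ∈ E := by
      rw [hE, mem_reProdIm, sub_re, sub_im, hs₁re, hs₁im, ofReal_re, ofReal_im]
      refine ⟨⟨?_, by linarith⟩, ⟨by linarith, by linarith⟩⟩
      rw [hδ] at *; linarith
    have h1 := hT _ hmem
    have h2 := hstepA y hy hy2
    have e : s₁ - (y : ℂ) - s₁ = -(y : ℂ) := by ring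
    rw [e] at h1
    calc ‖∑ j : Fin k, a j * (-(y : ℂ)) ^ (j : ℕ)‖
        = ‖f (s₁ - y) - (f (s₁ - y) - ∑ j : Fin k, a j * (-(y : ℂ)) ^ (j : ℕ))‖ := by
          congr 1; ring
      _ ≤ _ := (norm_sub_le _ _).trans (add_le_add h2 h1)
  have hA4 : A + B ≤ 4 * C₄ * B := by
    have h1 : C₄ * (C₃ * (A + B) * X ^ (-(c * r₀ / 4)) + B) ≤ 1 / 2 * (A + B) + C₄ * B := by
      calc C₄ * (C₃ * (A + B) * X ^ (-(c * r₀ / 4)) + B)
          = (C₄ * C₃ * X ^ (-(c * r₀ / 4))) * (A + B) + C₄ * B := by ring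
        _ ≤ _ := by gcongr
    have h2 : B ≤ C₄ * B := by
      calc B = 1 * B := (one_mul B).symm
        _ ≤ C₄ * B := by gcongr
    linarith
  -- step B
  set lam' : ℝ := M₁ * Λ / ρ ^ 2 with hlam'
  have hlam'0 : 0 ≤ lam' := by positivity
  have hlam'ρ : Real.exp (lam' * ρ ^ 2) = X ^ M₁ := by
    rw [← exp_mul_log hX0]
    congr 1
    rw [hlam', div_mul_cancel₀ _ (by positivity), hΛ]
  set M' : ℝ := C₃ * (4 * C₄ * B) with hM'
  have hC₄B : 1 ≤ 4 * C₄ * B := hAB.trans hA4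
  have hM'1 : 1 ≤ M' := one_le_mul_of_one_le_of_one_le hC₃ hC₄B
  have hre : (1 / 2 + u * I : ℂ).re = 1 / 2 := by simp
  have him : (1 / 2 + u * I : ℂ).im = u := by simp
  have h2 := local_lines (f := f) (x := r) (ρ := ρ) (lam := lam') (M := M')
    (s0 := 1 / 2 + u * I) hr0 hρ hlam'0 (by rw [hre, sub_self, abs_zero]; exact hr0.le)
    (diffContOnCl_crect hf hr0 (by linarith) hρ) (by
      intro s hs1 hs2
      rw [him] at hs2
      rcases hside2 s hs1 with h | h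
      · calc ‖f s‖ ≤ A + B := hleft s h hs2
          _ ≤ 1 * (4 * C₄ * B) := by rw [one_mul]; exact hA4
          _ ≤ M' := by rw [hM']; gcongr
      · calc ‖f s‖ ≤ C₃ * Q ^ (-r) * (A + B) := hright s h hs2
          _ ≤ C₃ * 1 * (4 * C₄ * B) := by
              have : Q ^ (-r) ≤ 1 := Real.rpow_le_one_of_one_le_of_nonpos hQ (by linarith)
              gcongr
          _ = M' := by rw [hM']; ring)
    (by
      intro s hs1 hs2
      rw [him] at hs2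
      rw [hlam'ρ]
      rw [abs_le] at hs1
      calc ‖f s‖ ≤ 1 * X ^ M₁ := by
            rw [one_mul]; exact hcrude s (by linarith) (by linarith) hs2.le
        _ ≤ M' * X ^ M₁ := by gcongr)
    (by linarith)
  have h3 : Real.exp (lam' * (2 * r) ^ 2) ≤ X ^ (c * r₀ / 8) := by
    rw [← exp_mul_log hX0]
    apply Real.exp_le_exp.mpr
    calc lam' * (2 * r) ^ 2 = (4 * r ^ 2 * M₁ / ρ ^ 2) * Λ := by rw [hlam']; ring
      _ ≤ (4 * r ^ 2 * (M₁ + 1) / ρ ^ 2) * Λ := by gcongr; linarith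
      _ ≤ _ := by gcongr
  calc ‖f (1 / 2 + u * I)‖ ≤ M' * X ^ (c * r₀ / 8) := h2.trans (by gcongr)
    _ = 4 * C₄ * C₃ * (B * X ^ (c * r₀ / 8)) := by rw [hM']; ring
    _ = _ := by rw [hB, ← Real.rpow_add hX0]

end point

end Pool.Agent.H23.DZ
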